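import Pool.Agent.X5.SYR.MeanOff
import Pool.Agent.Y501.SY.StmT
import Pool.Agent.Y501.SY.MainT

/-!
The averaged form: boundedness, positivity, uniform taming.
-/

set_option autoImplicit false
set_option linter.all false

open Set Filter Topology MeasureTheory
open scoped Manifold ContDiff

noncomputable section

namespace Pool.Agent.X5.SYR

open Pool.Agent.Y501.SY Pool.Agent.Y141.SY Pool.Agent.Y604.SY

section

variable {d : ℕ} {Z X : Type} [TopologicalSpace Z] [ChartedSpace (E d) Z]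
  [TopologicalSpace X] [ChartedSpace (E d) X]

/-- a tangent vector of `Z` in the chart of `X` at `x` -/
def crdE (pr : Z → X) (x : X) (z : Z) (u : TangentSpace (𝓡 d) z) : E d :=
  mfderiv (𝓡 d) (𝓡 d) (chartAt (E d) x) (pr z) (mfderiv (𝓡 d) (𝓡 d) pr z u)

/-- a tangent vector of `X` in the chart at `x` -/
def cX (x y : X) (a : TangentSpace (𝓡 d) y) : E d :=
  mfderiv (𝓡 d) (𝓡 d) (chartAt (E d) x) y a

/-- boundedness on all sheets near `x` -/
def BddSheetsE (pr : Z → X) (w : Form d Z 2) (K : Set X) (x : X) : Prop :=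
  ∃ B : ℝ, ∀ᶠ y in 𝓝 x, y ∉ K → ∀ z : Z, pr z = y → ∀ u u' : TangentSpace (𝓡 d) z,
    |w z ![u, u']| ≤ B * ‖crdE pr x z u‖ * ‖crdE pr x z u'‖

/-- uniform taming on the average near `x` -/
def UTAvgE {Γ : Type} [Group Γ] [MulAction Γ Z] (m : (Γ → ℝ) → ℝ) (pr : Z → X) (J : End d X)
    (w : Form d Z 2) (K : Set X) (x : X) : Prop :=
  ∃ c : ℝ, 0 < c ∧ ∀ᶠ y in 𝓝 x, y ∉ K → ∀ z : Z, pr z = y → ∀ u u' : TangentSpace (𝓡 d) z,
    mfderiv (𝓡 d) (𝓡 d) pr z u' = J (pr z) (mfderiv (𝓡 d) (𝓡 d) pr z u) →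
      c * ‖crdE pr x z u‖ ^ 2 ≤ m (fun γ : Γ => pull (d := d) (fun z : Z => γ • z) w z ![u, u'])

end

section

variable {d : ℕ} {Z X : Type} [TopologicalSpace Z] [ChartedSpace (E d) Z]
  [IsManifold (𝓡 d) ∞ Z] [TopologicalSpace X] [ChartedSpace (E d) X]
  [IsManifold (𝓡 d) ∞ X] {Γ : Type} [Group Γ] [MulAction Γ Z]

theorem avgForm {m : (Γ → ℝ) → ℝ} (hm : IsMean m)
    (hsm : ∀ γ : Γ, ContMDiff (𝓡 d) (𝓡 d) ∞ (fun z : Z => γ • z)) {pr : Z → X}
    (hpr : IsLocalDiffeomorph (𝓡 d) (𝓡 d) ∞ pr) (hsurj : Function.Surjective pr)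
    (hfib : ∀ z z' : Z, pr z = pr z' ↔ ∃ γ : Γ, γ • z = z')
    (J : End d X) {K : Set X} (hK : IsClosed K) {w : Form d Z 2}
    (hw : SmoothOff w (pr ⁻¹' K)) (hwc : IsDOff w 0 (pr ⁻¹' K))
    (hbd : BdtOff Γ w (pr ⁻¹' K))
    (hpos : ∀ z : Z, pr z ∉ K → ∀ u u' : TangentSpace (𝓡 d) z,
      mfderiv (𝓡 d) (𝓡 d) pr z u' = J (pr z) (mfderiv (𝓡 d) (𝓡 d) pr z u) →
        0 ≤ m (fun γ : Γ => pull (d := d) (fun z : Z => γ • z) w z ![u, u'])) :
    ∃ σ : Form d X 2, SmoothOff σ K ∧ IsDOff σ 0 K ∧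
      (∀ x, BddSheetsE pr w K x → BddAt σ K x) ∧
      (∀ y, y ∉ K → ∀ v : TangentSpace (𝓡 d) y, 0 ≤ σ y ![v, J y v]) ∧
      ∀ x, UTAvgE m pr J w K x → UTAt σ J K x := by
  have hn : (∞ : WithTop ℕ∞) ≠ 0 := by simp
  have hprγ : ∀ (γ : Γ) (z : Z), pr (γ • z) = pr z := fun γ z =>
    ((hfib z (γ • z)).2 ⟨γ, rfl⟩).symm
  have hmp : ∀ z, MDifferentiableAt (𝓡 d) (𝓡 d) pr z := fun z => (hpr z).mdifferentiableAt hn
  have hLc : IsClosed (pr ⁻¹' K) := by
    refine hK.preimage ?_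
    exact hpr.contMDiff.continuous
  have hLi : ∀ (γ : Γ) (z : Z), z ∉ pr ⁻¹' K → γ • z ∉ pr ⁻¹' K := by
    intro γ z hz h
    rw [mem_preimage, hprγ] at h
    exact hz h
  obtain ⟨w', hw', hwc', hav⟩ := meanOff d Z Γ m hm hsm w (pr ⁻¹' K) hLc hLi hw hwc hbd
  have pull_mul : ∀ (γ g : Γ) (z : Z) (u v : TangentSpace (𝓡 d) z),
      pull (d := d) (fun z : Z => γ • z) w (g • z)
        ![mfderiv (𝓡 d) (𝓡 d) (fun z : Z => g • z) z u,
          mfderiv (𝓡 d) (𝓡 d) (fun z : Z => g • z) z v] =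
      pull (d := d) (fun z : Z => (γ * g) • z) w z ![u, v] := by
    intro γ g z u v
    have h1 : (fun z : Z => (γ * g) • z) = (fun z : Z => γ • z) ∘ (fun z : Z => g • z) := by
      funext z; exact mul_smul γ g z
    have h2 : ∀ u : TangentSpace (𝓡 d) z,
        mfderiv (𝓡 d) (𝓡 d) ((fun z : Z => γ • z) ∘ (fun z : Z => g • z)) z u =
        mfderiv (𝓡 d) (𝓡 d) (fun z : Z => γ • z) (g • z)
          (mfderiv (𝓡 d) (𝓡 d) (fun z : Z => g • z) z u) := by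
      intro u
      rw [mfderiv_comp z ((hsm γ (g • z)).mdifferentiableAt (by simp))
        ((hsm g z).mdifferentiableAt (by simp))]
      rfl
    rw [h1, pull_apply, pull_apply, h2, h2]
    rfl
  have hinv : ∀ (γ : Γ) (z : Z), z ∉ pr ⁻¹' K →
      pull (d := d) (fun z : Z => γ • z) w' z = w' z := by
    intro g z hz
    ext u
    have hu : ![u 0, u 1] = u := by
      funext i; fin_cases i <;> rfl
    have e1 : pull (d := d) (fun z : Z => g • z) w' z u =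
        w' (g • z) ![mfderiv (𝓡 d) (𝓡 d) (fun z : Z => g • z) z (u 0),
          mfderiv (𝓡 d) (𝓡 d) (fun z : Z => g • z) z (u 1)] := by
      rw [← pull_apply, hu]
    rw [e1, (hav _ (hLi g z hz) _).2, (hav _ hz _).2]
    have e2 : (fun γ : Γ => pull (d := d) (fun z : Z => γ • z) w (g • z)
        ![mfderiv (𝓡 d) (𝓡 d) (fun z : Z => g • z) z (u 0),
          mfderiv (𝓡 d) (𝓡 d) (fun z : Z => g • z) z (u 1)]) =
        fun γ : Γ => (fun γ : Γ => pull (d := d) (fun z : Z => γ • z) w z u) (γ * g) := by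
      funext γ
      rw [pull_mul, hu]
    rw [e2, hm.inv g _ (hav z hz u).1]
  obtain ⟨σ, hσ, hσc, hpull⟩ := descOff d Z X Γ pr hsm hpr hsurj hfib K w' hw' hwc' hinv
  -- translates of tangent vectors
  have hdpr : ∀ (γ : Γ) (z : Z) (u : E d),
      (mfderiv (𝓡 d) (𝓡 d) pr (γ • z) : E d →L[ℝ] E d)
        ((mfderiv (𝓡 d) (𝓡 d) (fun z : Z => γ • z) z : E d →L[ℝ] E d) u) =
      (mfderiv (𝓡 d) (𝓡 d) pr z : E d →L[ℝ] E d) u := by
    intro γ z u
    have hmd : MDifferentiableAt (𝓡 d) (𝓡 d) (fun z : Z => γ • z) z :=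
      (hsm γ z).mdifferentiableAt hn
    have h3 : (mfderiv (𝓡 d) (𝓡 d) (pr ∘ (fun z : Z => γ • z)) z : E d →L[ℝ] E d) =
        (mfderiv (𝓡 d) (𝓡 d) pr (γ • z) : E d →L[ℝ] E d).comp
          (mfderiv (𝓡 d) (𝓡 d) (fun z : Z => γ • z) z : E d →L[ℝ] E d) :=
      mfderiv_comp z (hmp _) hmd
    have h4 : pr ∘ (fun z : Z => γ • z) = pr := funext fun z => hprγ γ z
    rw [h4] at h3
    exact (congrArg (fun T : E d →L[ℝ] E d => T u) h3).symm
  have hcrd : ∀ (x : X) (γ : Γ) (z : Z) (u : E d),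
      crdE pr x (γ • z) (mfderiv (𝓡 d) (𝓡 d) (fun z : Z => γ • z) z u) = crdE pr x z u := by
    intro x γ z u
    have h1 : ∀ (y : X), y = pr z → ∀ a b : E d, a = b →
        (mfderiv (𝓡 d) (𝓡 d) (chartAt (E d) x) y : E d →L[ℝ] E d) a =
        (mfderiv (𝓡 d) (𝓡 d) (chartAt (E d) x) (pr z) : E d →L[ℝ] E d) b := by
      rintro _ rfl a _ rfl
      rfl
    exact h1 _ (hprγ γ z) _ _ (hdpr γ z u)
  have hbij : ∀ z, Function.Bijective (mfderiv (𝓡 d) (𝓡 d) pr z) := by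
    intro z
    have h1 := (hpr z).mfderivToContinuousLinearEquiv_coe (by simp)
    rw [← h1]
    exact ((hpr z).mfderivToContinuousLinearEquiv (by simp)).bijective
  -- the form σ at pr z
  have hval : ∀ z : Z, pr z ∉ K → ∀ u u' : TangentSpace (𝓡 d) z,
      σ (pr z) ![mfderiv (𝓡 d) (𝓡 d) pr z u, mfderiv (𝓡 d) (𝓡 d) pr z u'] =
        m (fun γ : Γ => w (γ • z) ![mfderiv (𝓡 d) (𝓡 d) (fun z : Z => γ • z) z u,
          mfderiv (𝓡 d) (𝓡 d) (fun z : Z => γ • z) z u']) ∧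
      Bdd (fun γ : Γ => w (γ • z) ![mfderiv (𝓡 d) (𝓡 d) (fun z : Z => γ • z) z u,
          mfderiv (𝓡 d) (𝓡 d) (fun z : Z => γ • z) z u']) := by
    intro z hz u u'
    have e0 := hav z hz ![u, u']
    have e1 : (fun γ : Γ => pull (d := d) (fun z : Z => γ • z) w z ![u, u']) =
        fun γ : Γ => w (γ • z) ![mfderiv (𝓡 d) (𝓡 d) (fun z : Z => γ • z) z u,
          mfderiv (𝓡 d) (𝓡 d) (fun z : Z => γ • z) z u'] := by
      funext γ
      rw [pull_apply]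
    rw [e1] at e0
    refine ⟨?_, e0.1⟩
    rw [← e0.2, ← hpull z hz, pull_apply]
  have hval2 : ∀ z : Z, pr z ∉ K → ∀ u u' : TangentSpace (𝓡 d) z,
      σ (pr z) ![mfderiv (𝓡 d) (𝓡 d) pr z u, mfderiv (𝓡 d) (𝓡 d) pr z u'] =
        m (fun γ : Γ => pull (d := d) (fun z : Z => γ • z) w z ![u, u']) := by
    intro z hz u u'
    rw [← (hav z hz ![u, u']).2, ← hpull z hz, pull_apply]
  refine ⟨σ, hσ, hσc, ?_, ?_, ?_⟩
  · rintro x ⟨B, hB⟩
    have h1 : ∀ᶠ y in 𝓝 x, y ∉ K → ∀ a a' : TangentSpace (𝓡 d) y,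
        |σ y ![a, a']| ≤ B *
          ‖cX x y a‖ *
          ‖cX x y a'‖ := by
      filter_upwards [hB] with y hy hyK a a'
      obtain ⟨z, rfl⟩ := hsurj y
      obtain ⟨u, rfl⟩ := (hbij z).2 a
      obtain ⟨u', rfl⟩ := (hbij z).2 a'
      rw [(hval z hyK u u').1]
      refine mean_abs hm fun γ => ?_
      have h2 := hy hyK (γ • z) (hprγ γ z) (mfderiv (𝓡 d) (𝓡 d) (fun z : Z => γ • z) z u)
        (mfderiv (𝓡 d) (𝓡 d) (fun z : Z => γ • z) z u')
      rw [hcrd x γ z u, hcrd x γ z u'] at h2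
      exact h2
    have h2 := (ev_chart (d := d) x (fun y => y ∉ K → ∀ a a' : TangentSpace (𝓡 d) y,
        |σ y ![a, a']| ≤ B *
          ‖cX x y a‖ *
          ‖cX x y a'‖)).2 h1
    refine ⟨max B 0, ?_⟩
    filter_upwards [h2, (chartAt (E d) x).open_target.mem_nhds (mem_chart_target (E d) x)]
      with p hp hpt hpK
    refine ContinuousAlternatingMap.opNorm_le_bound _ (le_max_right _ _) fun v => ?_
    have hv : v = ![v 0, v 1] := by
      funext i; fin_cases i <;> rfl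
    have h3 : (pb (chartAt (E d) x).symm σ p) v =
        σ ((chartAt (E d) x).symm p) ![Pool.Agent.Y455.SY.A x p (v 0),
          Pool.Agent.Y455.SY.A x p (v 1)] := by
      rw [hv]
      show σ ((chartAt (E d) x).symm p) (fun i => (mfderiv (𝓡 d) (𝓡 d) (chartAt (E d) x).symm p :
        E d →L[ℝ] E d) ((![v 0, v 1] : Fin 2 → E d) i)) = _
      congr 1
      funext i
      fin_cases i <;> rfl
    rw [h3, Real.norm_eq_abs]
    have h4 := hp hpK (Pool.Agent.Y455.SY.A x p (v 0)) (Pool.Agent.Y455.SY.A x p (v 1))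
    have h5 : ∀ a : E d, cX x ((chartAt (E d) x).symm p)
        (Pool.Agent.Y455.SY.A x p a) = a := fun a => Pool.Agent.Y455.SY.BA x hpt a
    rw [h5, h5] at h4
    refine h4.trans ?_
    rw [Fin.prod_univ_two, mul_assoc]
    exact mul_le_mul_of_nonneg_right (le_max_left _ _) (by positivity)
  · intro y hy v
    obtain ⟨z, rfl⟩ := hsurj y
    obtain ⟨u, hu⟩ := (hbij z).2 v
    obtain ⟨u', hu'⟩ := (hbij z).2 (J (pr z) v)
    have h1 := hval2 z hy u u'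
    rw [hu, hu'] at h1
    rw [h1]
    exact hpos z hy u u' (by rw [hu, hu'])
  · rintro x ⟨c, hc, h⟩
    refine ⟨c, hc, ?_⟩
    have h1 : ∀ᶠ y in 𝓝 x, y ∉ K → ∀ v : TangentSpace (𝓡 d) y,
        c * ‖cX x y v‖ ^ 2 ≤ σ y ![v, J y v] := by
      filter_upwards [h] with y hy hyK v
      obtain ⟨z, rfl⟩ := hsurj y
      obtain ⟨u, hu⟩ := (hbij z).2 v
      obtain ⟨u', hu'⟩ := (hbij z).2 (J (pr z) v)
      have h1 := hval2 z hyK u u'
      rw [hu, hu'] at h1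
      rw [h1]
      have h2 := hy hyK z rfl u u' (by rw [hu, hu'])
      have h3 : crdE pr x z u = cX x (pr z) v := by
        rw [← hu]; rfl
      rw [h3] at h2
      exact h2
    have h2 := (ev_chart (d := d) x (fun y => y ∉ K → ∀ v : TangentSpace (𝓡 d) y,
        c * ‖cX x y v‖ ^ 2 ≤ σ y ![v, J y v])).2 h1
    filter_upwards [h2, (chartAt (E d) x).open_target.mem_nhds (mem_chart_target (E d) x)]
      with p hp hpt hpK v
    have h0 := Pool.Agent.Y455.SY.Q_eq σ J x hpt v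
    unfold Pool.Agent.Y455.SY.Q at h0
    rw [h0]
    have h5 : cX x ((chartAt (E d) x).symm p)
        (Pool.Agent.Y455.SY.A x p v) = v := Pool.Agent.Y455.SY.BA x hpt v
    have h6 := hp hpK (Pool.Agent.Y455.SY.A x p v)
    rw [h5] at h6
    exact h6

end

end Pool.Agent.X5.SYR
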