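import Pool.Agent.X5.SYR.MeanK
import Pool.Agent.X5.SYR.Avg

/-!
The averaged form in a prescribed class: boundedness, positivity, uniform taming.
-/

set_option autoImplicit false
set_option linter.all false

open Set Filter Topology MeasureTheory
open scoped Manifold ContDiff

noncomputable section

namespace Pool.Agent.X5.SYR

open Pool.Agent.Y501.SY Pool.Agent.Y141.SY Pool.Agent.Y604.SY

section

variable {d : ℕ} {Z X : Type} [TopologicalSpace Z] [ChartedSpace (E d) Z]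
  [TopologicalSpace X] [ChartedSpace (E d) X]

/-- boundedness of a one-form on all sheets near `x` -/
def BddSheets1E (pr : Z → X) (β : Form d Z 1) (K : Set X) (x : X) : Prop :=
  ∃ B : ℝ, ∀ᶠ y in 𝓝 x, y ∉ K → ∀ z : Z, pr z = y → ∀ u : TangentSpace (𝓡 d) z,
    |β z ![u]| ≤ B * ‖crdE pr x z u‖

end

section

variable {d : ℕ} {Z X : Type} [TopologicalSpace Z] [ChartedSpace (E d) Z]
  [IsManifold (𝓡 d) ∞ Z] [TopologicalSpace X] [ChartedSpace (E d) X]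
  [IsManifold (𝓡 d) ∞ X] {Γ : Type} [Group Γ] [MulAction Γ Z]

theorem classForm {m : (Γ → ℝ) → ℝ} (hm : IsMean m)
    (hsm : ∀ γ : Γ, ContMDiff (𝓡 d) (𝓡 d) ∞ (fun z : Z => γ • z)) {pr : Z → X}
    (hpr : IsLocalDiffeomorph (𝓡 d) (𝓡 d) ∞ pr) (hsurj : Function.Surjective pr)
    (hfib : ∀ z z' : Z, pr z = pr z' ↔ ∃ γ : Γ, γ • z = z')
    (J : End d X) {K : Set X} (hK : IsClosed K) (σ₀ : Form d X 2) (hσ₀ : IsSmooth σ₀)
    {β : Form d Z 1} {w : Form d Z 2}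
    (hβ : SmoothOff β (pr ⁻¹' K))
    (hw : ∀ (U : Set (E d)) (φ : E d → Z), IsOpen U → ContMDiffOn (𝓡 d) (𝓡 d) ∞ φ U →
      (∀ p ∈ U, φ p ∉ pr ⁻¹' K) →
      ∀ p ∈ U, pb φ w p = pb φ (pull (d := d) pr σ₀) p + extDeriv (pb φ β) p)
    (hbd : ∀ (U : Set (E d)) (φ : E d → Z), IsOpen U → ContMDiffOn (𝓡 d) (𝓡 d) ∞ φ U →
      (∀ p ∈ U, φ p ∉ pr ⁻¹' K) → UnifBdd (fun (γ : Γ) => pb (fun p => γ • φ p) β) U)
    (hpos : ∀ z : Z, pr z ∉ K → ∀ u u' : TangentSpace (𝓡 d) z,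
      mfderiv (𝓡 d) (𝓡 d) pr z u' = J (pr z) (mfderiv (𝓡 d) (𝓡 d) pr z u) →
        0 ≤ m (fun γ : Γ => pull (d := d) (fun z : Z => γ • z) w z ![u, u'])) :
    ∃ (α : Form d X 1) (σ : Form d X 2), SmoothOff α K ∧ SmoothOff σ K ∧
      (∀ (U : Set (E d)) (φ : E d → X), IsOpen U → ContMDiffOn (𝓡 d) (𝓡 d) ∞ φ U →
        (∀ p ∈ U, φ p ∉ K) → ∀ p ∈ U, pb φ σ p = pb φ σ₀ p + extDeriv (pb φ α) p) ∧
      (∀ x, BddSheets1E pr β K x → ∃ B : ℝ, ∀ᶠ p in 𝓝 (chartAt (E d) x x),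
        (chartAt (E d) x).symm p ∉ K → ‖pb (chartAt (E d) x).symm α p‖ ≤ B) ∧
      (∀ x, BddSheetsE pr w K x → BddAt σ K x) ∧
      (∀ y, y ∉ K → ∀ v : TangentSpace (𝓡 d) y, 0 ≤ σ y ![v, J y v]) ∧
      ∀ x, UTAvgE m pr J w K x → UTAt σ J K x := by
  have hn : (∞ : WithTop ℕ∞) ≠ 0 := by simp
  have hprγ : ∀ (γ : Γ) (z : Z), pr (γ • z) = pr z := fun γ z =>
    ((hfib z (γ • z)).2 ⟨γ, rfl⟩).symm
  have hmp : ∀ z, MDifferentiableAt (𝓡 d) (𝓡 d) pr z := fun z => (hpr z).mdifferentiableAt hn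
  have hLc : IsClosed (pr ⁻¹' K) := by
    refine hK.preimage ?_
    exact hpr.contMDiff.continuous
  -- the exact part
  let η : Form d Z 2 := fun z => w z - pull (d := d) pr σ₀ z
  have hηpb : ∀ (φ : E d → Z) (p : E d), pb φ η p =
      pb φ w p - pb φ (pull (d := d) pr σ₀) p := by
    intro φ p
    ext v
    rfl
  have hD : IsDOff β η (pr ⁻¹' K) := by
    intro U φ hU hφ hUK p hp
    rw [hηpb, hw U φ hU hφ hUK p hp]
    abel
  have hηs : SmoothOff η (pr ⁻¹' K) := by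
    intro U φ hU hφ hUK
    have h1 : ContDiffOn ℝ ∞ (pb φ β) U := hβ U φ hU hφ hUK
    have h2 : ContDiffOn ℝ ∞ (fderiv ℝ (pb φ β)) U := h1.fderiv_of_isOpen hU (by simp)
    obtain ⟨A, hA⟩ : ∃ A : (E d →L[ℝ] (E d) [⋀^Fin 1]→L[ℝ] ℝ) →L[ℝ] (E d) [⋀^Fin 2]→L[ℝ] ℝ,
        A = ContinuousAlternatingMap.alternatizeUncurryFinCLM (n := 1) ℝ (E d) ℝ := ⟨_, rfl⟩
    have h3 : ContDiffOn ℝ ∞ (A ∘ fderiv ℝ (pb φ β)) U := A.contDiff.comp_contDiffOn h2
    refine h3.congr fun p hp => ?_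
    rw [← hD U φ hU hφ hUK p hp, hA]
    rfl
  obtain ⟨α, ρ, hα, hρ, hDX, hvα, hvρ⟩ := desc_avg hm hsm hpr hsurj hfib hK β η hβ hηs hD hbd
  let σ : Form d X 2 := fun x => σ₀ x + ρ x
  have hσpb : ∀ (φ : E d → X) (p : E d), pb φ σ p = pb φ σ₀ p + pb φ ρ p := by
    intro φ p
    ext v
    rfl
  have hdpr : ∀ (γ : Γ) (z : Z) (u : E d),
      (mfderiv (𝓡 d) (𝓡 d) pr (γ • z) : E d →L[ℝ] E d)
        ((mfderiv (𝓡 d) (𝓡 d) (fun z : Z => γ • z) z : E d →L[ℝ] E d) u) =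
      (mfderiv (𝓡 d) (𝓡 d) pr z : E d →L[ℝ] E d) u := by
    intro γ z u
    have hmd : MDifferentiableAt (𝓡 d) (𝓡 d) (fun z : Z => γ • z) z :=
      (hsm γ z).mdifferentiableAt hn
    have h3 : (mfderiv (𝓡 d) (𝓡 d) (pr ∘ (fun z : Z => γ • z)) z : E d →L[ℝ] E d) =
        (mfderiv (𝓡 d) (𝓡 d) pr (γ • z) : E d →L[ℝ] E d).comp
          (mfderiv (𝓡 d) (𝓡 d) (fun z : Z => γ • z) z : E d →L[ℝ] E d) :=
      mfderiv_comp z (hmp _) hmd
    have h4 : pr ∘ (fun z : Z => γ • z) = pr := funext fun z => hprγ γ z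
    rw [h4] at h3
    exact (congrArg (fun T : E d →L[ℝ] E d => T u) h3).symm
  have hcrd : ∀ (x : X) (γ : Γ) (z : Z) (u : E d),
      crdE pr x (γ • z) (mfderiv (𝓡 d) (𝓡 d) (fun z : Z => γ • z) z u) = crdE pr x z u := by
    intro x γ z u
    have h1 : ∀ (y : X), y = pr z → ∀ a b : E d, a = b →
        (mfderiv (𝓡 d) (𝓡 d) (chartAt (E d) x) y : E d →L[ℝ] E d) a =
        (mfderiv (𝓡 d) (𝓡 d) (chartAt (E d) x) (pr z) : E d →L[ℝ] E d) b := by
      rintro _ rfl a _ rfl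
      rfl
    exact h1 _ (hprγ γ z) _ _ (hdpr γ z u)
  have hbij : ∀ z, Function.Bijective (mfderiv (𝓡 d) (𝓡 d) pr z) := by
    intro z
    have h1 := (hpr z).mfderivToContinuousLinearEquiv_coe (by simp)
    rw [← h1]
    exact ((hpr z).mfderivToContinuousLinearEquiv (by simp)).bijective
  -- the pull-back of σ₀ is invariant
  have hσ₀inv : ∀ (γ : Γ) (z : Z) (u u' : E d),
      σ₀ (pr (γ • z)) ![(mfderiv (𝓡 d) (𝓡 d) pr (γ • z) : E d →L[ℝ] E d)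
        ((mfderiv (𝓡 d) (𝓡 d) (fun z : Z => γ • z) z : E d →L[ℝ] E d) u),
        (mfderiv (𝓡 d) (𝓡 d) pr (γ • z) : E d →L[ℝ] E d)
        ((mfderiv (𝓡 d) (𝓡 d) (fun z : Z => γ • z) z : E d →L[ℝ] E d) u')] =
      σ₀ (pr z) ![(mfderiv (𝓡 d) (𝓡 d) pr z : E d →L[ℝ] E d) u,
        (mfderiv (𝓡 d) (𝓡 d) pr z : E d →L[ℝ] E d) u'] := by
    intro γ z u u'
    rw [hdpr, hdpr]
    have h1 : ∀ (y : X), y = pr z → ∀ a b : E d,
        (σ₀ y : (E d) [⋀^Fin 2]→L[ℝ] ℝ) ![a, b] =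
          (σ₀ (pr z) : (E d) [⋀^Fin 2]→L[ℝ] ℝ) ![a, b] := by
      rintro _ rfl a b
      rfl
    exact h1 _ (hprγ γ z) _ _
  -- the form w at γ z
  have hwη : ∀ (γ : Γ) (z : Z) (u u' : TangentSpace (𝓡 d) z),
      pull (d := d) (fun z : Z => γ • z) w z ![u, u'] =
        σ₀ (pr z) ![(mfderiv (𝓡 d) (𝓡 d) pr z : E d →L[ℝ] E d) u,
        (mfderiv (𝓡 d) (𝓡 d) pr z : E d →L[ℝ] E d) u'] +
        Pool.Agent.Y455.SY.pullk (d := d) (fun z : Z => γ • z) η z ![u, u'] := by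
    intro γ z u u'
    have e1 : Pool.Agent.Y455.SY.pullk (d := d) (fun z : Z => γ • z) η z ![u, u'] =
        pull (d := d) (fun z : Z => γ • z) η z ![u, u'] := rfl
    rw [e1, pull_apply, pull_apply]
    show _ = _ + (w (γ • z) ![mfderiv (𝓡 d) (𝓡 d) (fun z : Z => γ • z) z u,
      mfderiv (𝓡 d) (𝓡 d) (fun z : Z => γ • z) z u'] -
      pull (d := d) pr σ₀ (γ • z) ![mfderiv (𝓡 d) (𝓡 d) (fun z : Z => γ • z) z u,
      mfderiv (𝓡 d) (𝓡 d) (fun z : Z => γ • z) z u'])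
    rw [pull_apply]
    have h1 := hσ₀inv γ z u u'
    linarith
  have hval2 : ∀ z : Z, pr z ∉ K → ∀ u u' : TangentSpace (𝓡 d) z,
      σ (pr z) ![mfderiv (𝓡 d) (𝓡 d) pr z u, mfderiv (𝓡 d) (𝓡 d) pr z u'] =
        m (fun γ : Γ => pull (d := d) (fun z : Z => γ • z) w z ![u, u']) := by
    intro z hz u u'
    obtain ⟨hb, he⟩ := hvρ z hz ![u, u']
    have e1 : (fun γ : Γ => pull (d := d) (fun z : Z => γ • z) w z ![u, u']) =
        (fun γ : Γ => (fun _ : Γ => σ₀ (pr z) ![(mfderiv (𝓡 d) (𝓡 d) pr z : E d →L[ℝ] E d) u,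
        (mfderiv (𝓡 d) (𝓡 d) pr z : E d →L[ℝ] E d) u']) γ +
        (fun γ : Γ => Pool.Agent.Y455.SY.pullk (d := d) (fun z : Z => γ • z) η z ![u, u']) γ) := by
      funext γ
      exact hwη γ z u u'
    rw [e1, hm.add _ _ ⟨_, fun _ => le_refl _⟩ hb, mean_const hm, ← he]
    have e2 : Pool.Agent.Y945.SY.pl (d := d) pr ρ z ![u, u'] =
        pull (d := d) pr ρ z ![u, u'] := rfl
    rw [e2, pull_apply]
    rfl
  have hval : ∀ z : Z, pr z ∉ K → ∀ u u' : TangentSpace (𝓡 d) z,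
      σ (pr z) ![mfderiv (𝓡 d) (𝓡 d) pr z u, mfderiv (𝓡 d) (𝓡 d) pr z u'] =
        m (fun γ : Γ => w (γ • z) ![mfderiv (𝓡 d) (𝓡 d) (fun z : Z => γ • z) z u,
          mfderiv (𝓡 d) (𝓡 d) (fun z : Z => γ • z) z u']) := by
    intro z hz u u'
    rw [hval2 z hz u u']
    congr 1
    funext γ
    rw [pull_apply]
  have hval1 : ∀ z : Z, pr z ∉ K → ∀ u : TangentSpace (𝓡 d) z,
      α (pr z) ![mfderiv (𝓡 d) (𝓡 d) pr z u] =
        m (fun γ : Γ => β (γ • z) ![mfderiv (𝓡 d) (𝓡 d) (fun z : Z => γ • z) z u]) := by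
    intro z hz u
    have h1 := (hvα z hz ![u]).2
    have e1 : Pool.Agent.Y945.SY.pl (d := d) pr α z ![u] =
        α (pr z) ![mfderiv (𝓡 d) (𝓡 d) pr z u] := by
      show (α (pr z) : (E d) [⋀^Fin 1]→L[ℝ] ℝ) _ = (α (pr z) : (E d) [⋀^Fin 1]→L[ℝ] ℝ) _
      congr 1
      funext i
      fin_cases i
      rfl
    have e2 : ∀ γ : Γ, Pool.Agent.Y455.SY.pullk (d := d) (fun z : Z => γ • z) β z ![u] =
        β (γ • z) ![mfderiv (𝓡 d) (𝓡 d) (fun z : Z => γ • z) z u] := by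
      intro γ
      show (β (γ • z) : (E d) [⋀^Fin 1]→L[ℝ] ℝ) _ = (β (γ • z) : (E d) [⋀^Fin 1]→L[ℝ] ℝ) _
      congr 1
      funext i
      fin_cases i
      rfl
    rw [← e1, h1]
    congr 1
    funext γ
    exact e2 γ
  refine ⟨α, σ, hα, ?_, ?_, ?_, ?_, ?_, ?_⟩
  · intro U φ hU hφ hUK
    have h1 : ContDiffOn ℝ ∞ (fun p => pb φ σ₀ p + pb φ ρ p) U :=
      (hσ₀ U φ hU hφ).add (hρ U φ hU hφ hUK)
    exact h1.congr fun p _ => hσpb φ p
  · intro U φ hU hφ hUK p hp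
    rw [hσpb, hDX U φ hU hφ hUK p hp]
  · rintro x ⟨B, hB⟩
    have h1 : ∀ᶠ y in 𝓝 x, y ∉ K → ∀ a : TangentSpace (𝓡 d) y,
        |α y ![a]| ≤ B * ‖cX x y a‖ := by
      filter_upwards [hB] with y hy hyK a
      obtain ⟨z, rfl⟩ := hsurj y
      obtain ⟨u, rfl⟩ := (hbij z).2 a
      rw [hval1 z hyK u]
      refine mean_abs hm fun γ => ?_
      have h2 := hy hyK (γ • z) (hprγ γ z) (mfderiv (𝓡 d) (𝓡 d) (fun z : Z => γ • z) z u)
      rw [hcrd x γ z u] at h2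
      exact h2
    have h2 := (ev_chart (d := d) x (fun y => y ∉ K → ∀ a : TangentSpace (𝓡 d) y,
        |α y ![a]| ≤ B * ‖cX x y a‖)).2 h1
    refine ⟨max B 0, ?_⟩
    filter_upwards [h2, (chartAt (E d) x).open_target.mem_nhds (mem_chart_target (E d) x)]
      with p hp hpt hpK
    refine ContinuousAlternatingMap.opNorm_le_bound _ (le_max_right _ _) fun v => ?_
    have h3 : (pb (chartAt (E d) x).symm α p) v =
        α ((chartAt (E d) x).symm p) ![Pool.Agent.Y455.SY.A x p (v 0)] := by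
      show α ((chartAt (E d) x).symm p) (fun i => (mfderiv (𝓡 d) (𝓡 d) (chartAt (E d) x).symm p :
        E d →L[ℝ] E d) (v i)) = _
      congr 1
      funext i
      fin_cases i
      rfl
    rw [h3, Real.norm_eq_abs]
    have h4 := hp hpK (Pool.Agent.Y455.SY.A x p (v 0))
    have h5 : ∀ a : E d, cX x ((chartAt (E d) x).symm p)
        (Pool.Agent.Y455.SY.A x p a) = a := fun a => Pool.Agent.Y455.SY.BA x hpt a
    rw [h5] at h4
    refine h4.trans ?_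
    rw [Fin.prod_univ_one]
    exact mul_le_mul_of_nonneg_right (le_max_left _ _) (by positivity)
  · rintro x ⟨B, hB⟩
    have h1 : ∀ᶠ y in 𝓝 x, y ∉ K → ∀ a a' : TangentSpace (𝓡 d) y,
        |σ y ![a, a']| ≤ B *
          ‖cX x y a‖ *
          ‖cX x y a'‖ := by
      filter_upwards [hB] with y hy hyK a a'
      obtain ⟨z, rfl⟩ := hsurj y
      obtain ⟨u, rfl⟩ := (hbij z).2 a
      obtain ⟨u', rfl⟩ := (hbij z).2 a'
      rw [hval z hyK u u']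
      refine mean_abs hm fun γ => ?_
      have h2 := hy hyK (γ • z) (hprγ γ z) (mfderiv (𝓡 d) (𝓡 d) (fun z : Z => γ • z) z u)
        (mfderiv (𝓡 d) (𝓡 d) (fun z : Z => γ • z) z u')
      rw [hcrd x γ z u, hcrd x γ z u'] at h2
      exact h2
    have h2 := (ev_chart (d := d) x (fun y => y ∉ K → ∀ a a' : TangentSpace (𝓡 d) y,
        |σ y ![a, a']| ≤ B *
          ‖cX x y a‖ *
          ‖cX x y a'‖)).2 h1
    refine ⟨max B 0, ?_⟩
    filter_upwards [h2, (chartAt (E d) x).open_target.mem_nhds (mem_chart_target (E d) x)]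
      with p hp hpt hpK
    refine ContinuousAlternatingMap.opNorm_le_bound _ (le_max_right _ _) fun v => ?_
    have hv : v = ![v 0, v 1] := by
      funext i; fin_cases i <;> rfl
    have h3 : (pb (chartAt (E d) x).symm σ p) v =
        σ ((chartAt (E d) x).symm p) ![Pool.Agent.Y455.SY.A x p (v 0),
          Pool.Agent.Y455.SY.A x p (v 1)] := by
      rw [hv]
      show σ ((chartAt (E d) x).symm p) (fun i => (mfderiv (𝓡 d) (𝓡 d) (chartAt (E d) x).symm p :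
        E d →L[ℝ] E d) ((![v 0, v 1] : Fin 2 → E d) i)) = _
      congr 1
      funext i
      fin_cases i <;> rfl
    rw [h3, Real.norm_eq_abs]
    have h4 := hp hpK (Pool.Agent.Y455.SY.A x p (v 0)) (Pool.Agent.Y455.SY.A x p (v 1))
    have h5 : ∀ a : E d, cX x ((chartAt (E d) x).symm p)
        (Pool.Agent.Y455.SY.A x p a) = a := fun a => Pool.Agent.Y455.SY.BA x hpt a
    rw [h5, h5] at h4
    refine h4.trans ?_
    rw [Fin.prod_univ_two, mul_assoc]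
    exact mul_le_mul_of_nonneg_right (le_max_left _ _) (by positivity)
  · intro y hy v
    obtain ⟨z, rfl⟩ := hsurj y
    obtain ⟨u, hu⟩ := (hbij z).2 v
    obtain ⟨u', hu'⟩ := (hbij z).2 (J (pr z) v)
    have h1 := hval2 z hy u u'
    rw [hu, hu'] at h1
    rw [h1]
    exact hpos z hy u u' (by rw [hu, hu'])
  · rintro x ⟨c, hc, h⟩
    refine ⟨c, hc, ?_⟩
    have h1 : ∀ᶠ y in 𝓝 x, y ∉ K → ∀ v : TangentSpace (𝓡 d) y,
        c * ‖cX x y v‖ ^ 2 ≤ σ y ![v, J y v] := by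
      filter_upwards [h] with y hy hyK v
      obtain ⟨z, rfl⟩ := hsurj y
      obtain ⟨u, hu⟩ := (hbij z).2 v
      obtain ⟨u', hu'⟩ := (hbij z).2 (J (pr z) v)
      have h1 := hval2 z hyK u u'
      rw [hu, hu'] at h1
      rw [h1]
      have h2 := hy hyK z rfl u u' (by rw [hu, hu'])
      have h3 : crdE pr x z u = cX x (pr z) v := by
        rw [← hu]; rfl
      rw [h3] at h2
      exact h2
    have h2 := (ev_chart (d := d) x (fun y => y ∉ K → ∀ v : TangentSpace (𝓡 d) y,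
        c * ‖cX x y v‖ ^ 2 ≤ σ y ![v, J y v])).2 h1
    filter_upwards [h2, (chartAt (E d) x).open_target.mem_nhds (mem_chart_target (E d) x)]
      with p hp hpt hpK v
    have h0 := Pool.Agent.Y455.SY.Q_eq σ J x hpt v
    unfold Pool.Agent.Y455.SY.Q at h0
    rw [h0]
    have h5 : cX x ((chartAt (E d) x).symm p)
        (Pool.Agent.Y455.SY.A x p v) = v := Pool.Agent.Y455.SY.BA x hpt v
    have h6 := hp hpK (Pool.Agent.Y455.SY.A x p v)
    rw [h5] at h6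
    exact h6

end

end Pool.Agent.X5.SYR
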