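import Pool.Agent.X5.SYR.Pub
import Pool.Agent.X5.SYR.Avg
import Pool.Agent.Y501.SY.FinalT
import Pool.Agent.Y501.SY.BridgeA

/-!
Removable singularities on amenable coverings.
-/

set_option autoImplicit false
set_option linter.all false

open Set Filter Topology MeasureTheory
open scoped Manifold ContDiff

noncomputable section

namespace Pool.Agent.X5.SYR

open Pool.Agent.Y501 Pool.Agent.Y501.SYP

section mono

variable {V : Type} [NormedAddCommGroup V] [NormedSpace ℝ V] [MeasurableSpace V] [BorelSpace V]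
  {X : Type} [TopologicalSpace X] [ChartedSpace V X]

theorem smallAll_mono {J : End V X} {C C' : Set X} {z : X} (h : SmallAll J C' z) (hC : C ⊆ C') :
    SmallAll J C z := by
  rcases h with ⟨N, hN, h0⟩ | h | ⟨n, a, b, hab, hpos⟩
  · left
    refine ⟨N, hN, measure_mono_null (image_mono ?_) h0⟩
    exact inter_subset_inter_left _ (inter_subset_inter_left _ hC)
  · right; left
    intro v hv hJv
    refine h v ?_ ?_
    · exact fun g hg hg0 => hv g hg fun x hx => hg0 x (hC hx)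
    · exact fun g hg hg0 => hJv g hg fun x hx => hg0 x (hC hx)
  · right; right
    refine ⟨n, a, b, fun i => ⟨(hab i).smooth_a, (hab i).smooth_b, ?_⟩, hpos⟩
    obtain ⟨N, hN, h0⟩ := (hab i).null
    exact ⟨N, hN, measure_mono_null (image_mono (inter_subset_inter_left _ hC)) h0⟩

end mono

attribute [local instance] cs mf

variable {d : ℕ} {Z X : Type} [TopologicalSpace Z] [ChartedSpace (ES d) Z]
  [IsManifold 𝓘(ℝ, ES d) ∞ Z] [TopologicalSpace X] [ChartedSpace (ES d) X]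
  [IsManifold 𝓘(ℝ, ES d) ∞ X] {Γ : Type} [Group Γ] [MulAction Γ Z]

/-- removable singularities of forms on amenable coverings -/
theorem removableAmenable [CompactSpace X] [T2Space X] (hd : 1 ≤ d)
    (m : (Γ → ℝ) → ℝ) (hm : IsMean m) (pr : Z → X) (hpr : NormalCovering (ES d) Γ pr) (J : End (ES d) X) (hJ : IsAlmostComplex J)
    (K : Set X) (hK : IsClosed K)
    (hH : ∀ x₀ : X, μH[(d : ℝ) - 1] (chartAt (ES d) x₀ '' (K ∩ (chartAt (ES d) x₀).source)) = 0)
    (w : Form (ES d) Z 2) (hw : ClosedOff w (pr ⁻¹' K))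
    (hbt : BoundedTranslatesOff Γ w (pr ⁻¹' K)) (hb : ∀ x ∈ K, BddSheets pr w K x)
    (hpos : WeaklyTamesOnAverage m pr J w K)
    (hsmall : ∀ x ∈ CritAverage m pr J w K,
      SmallAll J (connectedComponentIn (CritAverage m pr J w K) x) x) :
    ∃ σ : Form (ES d) X 2, IsTamingSymplectic σ J := by
  obtain ⟨σ, h1, h2, h3, h4, h5⟩ := avgForm (d := d) (Z := Z) (X := X) (Γ := Γ) (mean_of hm)
    hpr.smooth (pr := pr) hpr.diffeo hpr.surj hpr.orbits J (K := K) hK (w := w)
    (fun U φ hU hφ hUK => (hw U φ ⟨hU, hφ⟩ hUK).1)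
    (fun U φ hU hφ hUK p hp => (hw U φ ⟨hU, hφ⟩ hUK).2 p hp)
    (fun U φ hU hφ hUK => ⟨(hbt U φ ⟨hU, hφ⟩ hUK).smooth, (hbt U φ ⟨hU, hφ⟩ hUK).bound⟩)
    hpos
  have hsub : Crit σ J K ⊆ CritAverage m pr J w K := by
    intro x hx hxu
    exact hx (h5 x hxu)
  obtain ⟨-, -, τ, -, -, -, hτ, -⟩ := removableSing hd J hJ K hK hH σ
    (fun U φ hφ hUK => ⟨h1 U φ hφ.1 hφ.2 hUK, fun p hp => h2 U φ hφ.1 hφ.2 hUK p hp⟩)
    (fun x hx => h3 x (hb x hx)) (fun x hx v => h4 x hx v)
    (fun z hz => smallAll_mono (hsmall z (hsub hz)) (connectedComponentIn_mono z hsub))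
    univ isOpen_univ (subset_univ K)
  exact ⟨τ, hτ⟩

end Pool.Agent.X5.SYR
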