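import Pool.Agent.X5.SYR.PubC
import Pool.Agent.X5.SYR.ClassE
import Pool.Agent.X5.SYR.Final
import Pool.Agent.Y501.SY.FinalV

/-!
Removable singularities on amenable coverings, in a prescribed class.
-/

set_option autoImplicit false
set_option linter.all false

open Set Filter Topology MeasureTheory
open scoped Manifold ContDiff

noncomputable section

namespace Pool.Agent.X5.SYR

open Pool.Agent.Y501 Pool.Agent.Y501.SYP

attribute [local instance] cs mf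

variable {d : ℕ} {Z X : Type} [TopologicalSpace Z] [ChartedSpace (ES d) Z]
  [IsManifold 𝓘(ℝ, ES d) ∞ Z] [TopologicalSpace X] [ChartedSpace (ES d) X]
  [IsManifold 𝓘(ℝ, ES d) ∞ X] {Γ : Type} [Group Γ] [MulAction Γ Z]

/-- removable singularities of forms on amenable coverings, in a prescribed class -/
theorem removableAmenableClass [CompactSpace X] [T2Space X] (hd : 1 ≤ d)
    (m : (Γ → ℝ) → ℝ) (hm : IsMean m) (pr : Z → X) (hpr : NormalCovering (ES d) Γ pr) (J : End (ES d) X) (hJ : IsAlmostComplex J)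
    (K : Set X) (hK : IsClosed K)
    (hH : ∀ x₀ : X, μH[(d : ℝ) - 1] (chartAt (ES d) x₀ '' (K ∩ (chartAt (ES d) x₀).source)) = 0)
    (σ₀ : Form (ES d) X 2) (hσ₀ : IsSmooth σ₀) (hσ₀c : IsClosedForm σ₀)
    (β : Form (ES d) Z 1) (w : Form (ES d) Z 2) (hβ : SmoothOff β (pr ⁻¹' K))
    (hw : EqPlusD w (lift pr σ₀) β (pr ⁻¹' K))
    (hbt : BoundedTranslates1Off Γ β (pr ⁻¹' K))
    (hb : ∀ x ∈ K, BddSheets1 pr β K x ∧ BddSheets pr w K x)
    (hpos : WeaklyTamesOnAverage m pr J w K)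
    (hsmall : ∀ x ∈ CritAverage m pr J w K,
      SmallAll J (connectedComponentIn (CritAverage m pr J w K) x) x) :
    ∃ (α : Form (ES d) X 1) (ρ : Form (ES d) X 2), IsSmooth α ∧ IsSmooth ρ ∧ IsD α ρ ∧
      IsTamingSymplectic (addF σ₀ ρ) J ∧ ∀ τ : Form (ES d) X 2, (∀ x, TamesAt τ J x) →
        ∀ t : ℝ, 0 ≤ t → t ≤ 1 → NondegForm (segment τ (addF σ₀ ρ) t) := by
  obtain ⟨α, σ, h0, h1, h2, h3a, h3, h4, h5⟩ := classForm (d := d) (Z := Z) (X := X) (Γ := Γ)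
    (mean_of hm) hpr.smooth (pr := pr) hpr.diffeo hpr.surj hpr.orbits J (K := K) hK σ₀
    (fun U φ hU hφ => hσ₀ U φ ⟨hU, hφ⟩) (β := β) (w := w)
    (fun U φ hU hφ hUK => hβ U φ ⟨hU, hφ⟩ hUK)
    (fun U φ hU hφ hUK p hp => hw U φ ⟨hU, hφ⟩ hUK p hp)
    (fun U φ hU hφ hUK => ⟨(hbt U φ ⟨hU, hφ⟩ hUK).smooth, (hbt U φ ⟨hU, hφ⟩ hUK).bound⟩)
    hpos
  have hsub : Crit σ J K ⊆ CritAverage m pr J w K := by
    intro x hx hxu
    exact hx (h5 x hxu)
  exact removableInClass hd J hJ K hK hH σ₀ hσ₀ hσ₀c α σ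
    (fun U φ hφ hUK => h0 U φ hφ.1 hφ.2 hUK) (fun U φ hφ hUK => h1 U φ hφ.1 hφ.2 hUK)
    (fun U φ hφ hUK p hp => h2 U φ hφ.1 hφ.2 hUK p hp)
    (fun x hx => ⟨h3a x (hb x hx).1, h3 x (hb x hx).2⟩) (fun x hx v => h4 x hx v)
    (fun z hz => smallAll_mono (hsmall z (hsub hz)) (connectedComponentIn_mono z hsub))

end Pool.Agent.X5.SYR
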