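import Pool.Agent.Y501.SY.StmU
import Pool.Agent.Y501.SY.StmR
import Pool.Agent.Y455.SY.Mean1
import Pool.Agent.Y945.SY.Desc1
import Pool.Agent.Y903.SY.BT
import Pool.Agent.Y153.SY.Avg

/-!
The averages of the translates of a one-form and of its exterior derivative, off an invariant
closed set, and their descent along a normal covering.
-/

set_option autoImplicit false
set_option linter.all false

open Set Filter Topology MeasureTheory
open scoped Manifold ContDiff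

noncomputable section

namespace Pool.Agent.X5.SYR

open Pool.Agent.Y501.SY Pool.Agent.Y141.SY Pool.Agent.Y455.SY

/-- the average of a form off a closed set, in every degree -/
theorem mean_off {d k : ℕ} {Z : Type} [TopologicalSpace Z] [ChartedSpace (E d) Z]
    [IsManifold (𝓡 d) ∞ Z] {Γ : Type} [Group Γ] [MulAction Γ Z] {m : (Γ → ℝ) → ℝ} (hm : IsMean m)
    (hsm : ∀ γ : Γ, ContMDiff (𝓡 d) (𝓡 d) ∞ (fun z : Z => γ • z)) (w : Form d Z k)
    {L : Set Z} (hL : IsClosed L)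
    (hbt : ∀ (U : Set (E d)) (φ : E d → Z), IsOpen U → ContMDiffOn (𝓡 d) (𝓡 d) ∞ φ U →
      (∀ p ∈ U, φ p ∉ L) → UnifBdd (fun (γ : Γ) => pb (fun p => γ • φ p) w) U) :
    ∃ w' : Form d Z k, SmoothOff w' L ∧ (∀ z ∈ L, w' z = 0) ∧
      (∀ z, z ∉ L → ∀ (u : Fin k → TangentSpace (𝓡 d) z),
        Bdd (fun γ : Γ => pullk (d := d) (fun z : Z => γ • z) w z u) ∧
        w' z u = m (fun γ : Γ => pullk (d := d) (fun z : Z => γ • z) w z u)) ∧
      (∀ (φ : E d → Z) (p : E d), MDifferentiableAt (𝓡 d) (𝓡 d) φ p → φ p ∉ L →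
        ∀ v : Fin k → E d, pb φ (w' : Form d Z k) p v =
          m (fun γ : Γ => pb (fun p => γ • φ p) w p v)) := by
  have hAVG := Pool.Agent.Y153.SY.t_AVG
  -- chain rule
  have chain : ∀ (φ : E d → Z) (p : E d), MDifferentiableAt (𝓡 d) (𝓡 d) φ p →
      ∀ (γ : Γ) (v : Fin k → E d), pb (fun p => γ • φ p) w p v =
        pullk (d := d) (fun z : Z => γ • z) w (φ p) (fun i => mfderiv (𝓡 d) (𝓡 d) φ p (v i)) := by
    intro φ p hφ γ v
    have h1 : MDifferentiableAt (𝓡 d) (𝓡 d) (fun z : Z => γ • z) (φ p) :=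
      (hsm γ).mdifferentiableAt (by simp)
    have h2 : mfderiv (𝓡 d) (𝓡 d) (fun p => γ • φ p) p =
        (mfderiv (𝓡 d) (𝓡 d) (fun z : Z => γ • z) (φ p)).comp (mfderiv (𝓡 d) (𝓡 d) φ p) :=
      mfderiv_comp p h1 hφ
    unfold pb pullk
    rw [h2]
    rfl
  -- bounds
  have bound : ∀ z : Z, z ∉ L → ∃ C : ℝ, ∀ (γ : Γ) (u : Fin k → E d),
      |(pullk (d := d) (fun z : Z => γ • z) w z : (E d) [⋀^Fin k]→L[ℝ] ℝ) u| ≤ C * ∏ i, ‖u i‖ := by
    intro z hzL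
    obtain ⟨e, he⟩ : ∃ e, e = chartAt (E d) z := ⟨_, rfl⟩
    have hat : e ∈ atlas (E d) Z := by rw [he]; exact chart_mem_atlas _ _
    have hz : z ∈ e.source := by rw [he]; exact mem_chart_source _ _
    have hsmooth : ContMDiffOn (𝓡 d) (𝓡 d) ∞ e.symm e.target := by
      rw [he]
      exact contMDiffOn_chart_symm
    have hmd := mdifferentiable_chart (I := 𝓡 d) z
    rw [← he] at hmd
    have hpt : e z ∈ e.target := e.map_source hz
    have hO : IsOpen (e.target ∩ e.symm ⁻¹' Lᶜ) :=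
      e.isOpen_inter_preimage_symm hL.isOpen_compl
    have hpO : e z ∈ e.target ∩ e.symm ⁻¹' Lᶜ := by
      refine ⟨hpt, ?_⟩
      rw [mem_preimage, e.left_inv hz]
      exact hzL
    obtain ⟨N, hN, C, hC⟩ := (hbt (e.target ∩ e.symm ⁻¹' Lᶜ) e.symm hO
      (hsmooth.mono inter_subset_left) (fun p hp => hp.2)).2 0 (e z) hpO
    have hC' : ∀ γ : Γ, ‖pb (fun p => γ • e.symm p) w (e z)‖ ≤ C := fun γ => by
      have := hC (e z) (mem_of_mem_nhds hN) γ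
      rwa [norm_iteratedFDeriv_zero] at this
    have hmf : MDifferentiableAt (𝓡 d) (𝓡 d) e.symm (e z) :=
      (hsmooth.contMDiffAt (e.open_target.mem_nhds hpt)).mdifferentiableAt (by simp)
    let B : E d →L[ℝ] E d := mfderiv (𝓡 d) (𝓡 d) e z
    let A : E d →L[ℝ] E d := mfderiv (𝓡 d) (𝓡 d) e.symm (e z)
    have hAB : ∀ v : E d, A (B v) = v := fun v =>
      DFunLike.congr_fun (hmd.symm_comp_deriv hz) v
    have hC0 : 0 ≤ C := (norm_nonneg _).trans (hC' 1)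
    refine ⟨C * ‖B‖ ^ k, fun γ u => ?_⟩
    have h1 := chain e.symm (e z) hmf γ (fun i => B (u i))
    have h2 : (pullk (d := d) (fun z : Z => γ • z) w z : (E d) [⋀^Fin k]→L[ℝ] ℝ) u =
        pb (fun p => γ • e.symm p) w (e z) (fun i => B (u i)) := by
      rw [h1]
      have h3 : ∀ z' : Z, z' = z → (pullk (d := d) (fun z : Z => γ • z) w z :
          (E d) [⋀^Fin k]→L[ℝ] ℝ) u =
          (pullk (d := d) (fun z : Z => γ • z) w z' : (E d) [⋀^Fin k]→L[ℝ] ℝ) u := by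
        rintro z' rfl
        rfl
      rw [h3 _ (e.left_inv hz)]
      congr 1
      funext i
      exact (hAB (u i)).symm
    rw [h2]
    refine ((pb (fun p => γ • e.symm p) w (e z)).le_opNorm _).trans ?_
    refine (mul_le_mul_of_nonneg_right (hC' γ) (Finset.prod_nonneg fun i _ => norm_nonneg _)).trans ?_
    rw [mul_assoc]
    refine mul_le_mul_of_nonneg_left ?_ hC0
    calc ∏ i, ‖B (u i)‖ ≤ ∏ i, (‖B‖ * ‖u i‖) :=
          Finset.prod_le_prod (fun i _ => norm_nonneg _) (fun i _ => B.le_opNorm (u i))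
      _ = ‖B‖ ^ k * ∏ i, ‖u i‖ := by
          rw [Finset.prod_mul_distrib, Finset.prod_const, Finset.card_univ, Fintype.card_fin]
  have hex : ∀ z : Z, ∃ α : (E d) [⋀^Fin k]→L[ℝ] ℝ, (z ∈ L → α = 0) ∧
      (z ∉ L → ∀ u : Fin k → E d, α u =
      m (fun γ : Γ => (pullk (d := d) (fun z : Z => γ • z) w z : (E d) [⋀^Fin k]→L[ℝ] ℝ) u)) := by
    intro z
    by_cases hz : z ∈ L
    · exact ⟨0, fun _ => rfl, fun h => absurd hz h⟩
    · obtain ⟨α, hα⟩ := exists_avg hm _ (bound z hz)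
      exact ⟨α, fun h => absurd h hz, fun _ => hα⟩
  choose w' hw0 hw' using hex
  -- the average in coordinates
  have hev : ∀ (φ : E d → Z) (p : E d), MDifferentiableAt (𝓡 d) (𝓡 d) φ p → φ p ∉ L →
      ∀ v : Fin k → E d, pb φ (w' : Form d Z k) p v =
        m (fun γ : Γ => pb (fun p => γ • φ p) w p v) := by
    intro φ p hφ hpL v
    have h1 : pb φ (w' : Form d Z k) p v =
        w' (φ p) (fun i => mfderiv (𝓡 d) (𝓡 d) φ p (v i)) := rfl
    rw [h1, hw' _ hpL]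
    congr 1
    funext γ
    exact (chain φ p hφ γ v).symm
  have hmdiff : ∀ (U : Set (E d)) (φ : E d → Z), IsOpen U → ContMDiffOn (𝓡 d) (𝓡 d) ∞ φ U →
      ∀ p ∈ U, MDifferentiableAt (𝓡 d) (𝓡 d) φ p := fun U φ hU hφ p hp =>
    (hφ.contMDiffAt (hU.mem_nhds hp)).mdifferentiableAt (by simp)
  have hsm' : SmoothOff (w' : Form d Z k) L := by
    intro U φ hU hφ hUL
    refine smooth_of_eval fun v => ?_
    exact (hAVG d Γ m hm U (fun γ p => pb (fun p => γ • φ p) w p v) hU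
      (unif_eval hU (hbt U φ hU hφ hUL) v)).1.congr fun p hp =>
        hev φ p (hmdiff U φ hU hφ p hp) (hUL p hp) v
  refine ⟨w', hsm', hw0, fun z hz u => ⟨?_, hw' z hz u⟩, hev⟩
  obtain ⟨C, hC⟩ := bound z hz
  exact ⟨_, fun γ => hC γ u⟩

/-- the averages of a one-form and of its exterior derivative -/
theorem mean_off1 {d : ℕ} {Z : Type} [TopologicalSpace Z] [ChartedSpace (E d) Z]
    [IsManifold (𝓡 d) ∞ Z] {Γ : Type} [Group Γ] [MulAction Γ Z] {m : (Γ → ℝ) → ℝ} (hm : IsMean m)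
    (hsm : ∀ γ : Γ, ContMDiff (𝓡 d) (𝓡 d) ∞ (fun z : Z => γ • z))
    {L : Set Z} (hL : IsClosed L) (hLi : ∀ (γ : Γ) (z : Z), z ∉ L → γ • z ∉ L)
    (β : Form d Z 1) (η : Form d Z 2) (hβ : SmoothOff β L) (hη : SmoothOff η L)
    (hD : IsDOff β η L)
    (hb1 : ∀ (U : Set (E d)) (φ : E d → Z), IsOpen U → ContMDiffOn (𝓡 d) (𝓡 d) ∞ φ U →
      (∀ p ∈ U, φ p ∉ L) → UnifBdd (fun (γ : Γ) => pb (fun p => γ • φ p) β) U) :
    ∃ (β' : Form d Z 1) (η' : Form d Z 2), SmoothOff β' L ∧ SmoothOff η' L ∧ IsDOff β' η' L ∧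
      (∀ z ∈ L, β' z = 0) ∧ (∀ z ∈ L, η' z = 0) ∧
      (∀ z, z ∉ L → ∀ (u : Fin 1 → TangentSpace (𝓡 d) z),
        Bdd (fun γ : Γ => pullk (d := d) (fun z : Z => γ • z) β z u) ∧
        β' z u = m (fun γ : Γ => pullk (d := d) (fun z : Z => γ • z) β z u)) ∧
      (∀ z, z ∉ L → ∀ (u : Fin 2 → TangentSpace (𝓡 d) z),
        Bdd (fun γ : Γ => pullk (d := d) (fun z : Z => γ • z) η z u) ∧
        η' z u = m (fun γ : Γ => pullk (d := d) (fun z : Z => γ • z) η z u)) := by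
  have hAVG := Pool.Agent.Y153.SY.t_AVG
  have hb2 : ∀ (U : Set (E d)) (φ : E d → Z), IsOpen U → ContMDiffOn (𝓡 d) (𝓡 d) ∞ φ U →
      (∀ p ∈ U, φ p ∉ L) → UnifBdd (fun (γ : Γ) => pb (fun p => γ • φ p) η) U := by
    intro U φ hU hφ hUL
    have hsm2 : ∀ γ : Γ, ContMDiffOn (𝓡 d) (𝓡 d) ∞ (fun p => γ • φ p) U :=
      fun γ => (hsm γ).comp_contMDiffOn hφ
    have hav2 : ∀ γ : Γ, ∀ p ∈ U, γ • φ p ∉ L := fun γ p hp => hLi γ _ (hUL p hp)
    obtain ⟨h1, h2⟩ := hb1 U φ hU hφ hUL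
    obtain ⟨K, hK, hbound⟩ := Pool.Agent.Y903.SY.bound (E d)
    refine ⟨fun γ => hη U _ hU (hsm2 γ) (hav2 γ), ?_⟩
    intro n p hp
    obtain ⟨N, hN, C, hC⟩ := h2 (n + 1) p hp
    refine ⟨N ∩ U, inter_mem hN (hU.mem_nhds hp), K * C, ?_⟩
    rintro q ⟨hqN, hqU⟩ γ
    exact (hbound U hU _ _ (h1 γ) (hD U _ hU (hsm2 γ) (hav2 γ)) n q hqU).trans
      (mul_le_mul_of_nonneg_left (hC q hqN γ) hK)
  obtain ⟨β', hs1, h01, hv1, he1⟩ := mean_off hm hsm β hL hb1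
  obtain ⟨η', hs2, h02, hv2, he2⟩ := mean_off hm hsm η hL hb2
  have hmdiff : ∀ (U : Set (E d)) (φ : E d → Z), IsOpen U → ContMDiffOn (𝓡 d) (𝓡 d) ∞ φ U →
      ∀ p ∈ U, MDifferentiableAt (𝓡 d) (𝓡 d) φ p := fun U φ hU hφ p hp =>
    (hφ.contMDiffAt (hU.mem_nhds hp)).mdifferentiableAt (by simp)
  refine ⟨β', η', hs1, hs2, ?_, h01, h02, hv1, hv2⟩
  intro U φ hU hφ hUL p hp
  have hd : DifferentiableAt ℝ (pb φ (β' : Form d Z 1)) p :=
    ((hs1 U φ hU hφ hUL).contDiffAt (hU.mem_nhds hp)).differentiableAt (by simp)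
  have hun := hb1 U φ hU hφ hUL
  have hAV : ∀ v : Fin 1 → E d,
      ∀ x : E d, fderiv ℝ (fun p => m (fun γ : Γ => pb (fun p => γ • φ p) β p v)) p x =
          m (fun γ => fderiv ℝ (fun p => pb (fun p => γ • φ p) β p v) p x) := fun v =>
    (hAVG d Γ m hm U (fun γ p => pb (fun p => γ • φ p) β p v) hU (unif_eval hU hun v)).2 p hp
  ext v
  rw [extDeriv_apply hd]
  have h1 : ∀ i : Fin 2, fderiv ℝ (fun q => pb φ (β' : Form d Z 1) q (i.removeNth v)) p (v i) =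
      m (fun γ : Γ => fderiv ℝ (fun q => pb (fun p => γ • φ p) β q (i.removeNth v)) p (v i)) := by
    intro i
    rw [← hAV (i.removeNth v)]
    have h2 : (fun q => pb φ (β' : Form d Z 1) q (i.removeNth v)) =ᶠ[𝓝 p]
        fun q => m (fun γ : Γ => pb (fun p => γ • φ p) β q (i.removeNth v)) := by
      filter_upwards [hU.mem_nhds hp] with q hq
      exact he1 φ q (hmdiff U φ hU hφ q hq) (hUL q hq) _
    rw [h2.fderiv_eq]
  have hbd : ∀ i : Fin 2, Bdd (fun γ : Γ =>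
      fderiv ℝ (fun q => pb (fun p => γ • φ p) β q (i.removeNth v)) p (v i)) := by
    intro i
    obtain ⟨N, hN, C, hC⟩ := (unif_eval hU hun (i.removeNth v)).2 1 p hp
    refine ⟨C * ‖v i‖, fun γ => ?_⟩
    have h2 := hC p (mem_of_mem_nhds hN) γ
    rw [norm_iteratedFDeriv_one] at h2
    exact (ContinuousLinearMap.le_opNorm _ _).trans
      (mul_le_mul_of_nonneg_right h2 (norm_nonneg _))
  have h3 : ∀ γ : Γ, ∑ i : Fin 2, (-1 : ℝ) ^ i.val *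
      fderiv ℝ (fun q => pb (fun p => γ • φ p) β q (i.removeNth v)) p (v i) =
        pb (fun p => γ • φ p) η p v := by
    intro γ
    have h4 : ContMDiffOn (𝓡 d) (𝓡 d) ∞ (fun p => γ • φ p) U := (hsm γ).comp_contMDiffOn hφ
    have h4' : ∀ p ∈ U, γ • φ p ∉ L := fun p hp => hLi γ _ (hUL p hp)
    have h5 := hD U (fun p => γ • φ p) hU h4 h4' p hp
    have h6 : DifferentiableAt ℝ (pb (fun p => γ • φ p) β) p :=
      ((hβ U _ hU h4 h4').contDiffAt (hU.mem_nhds hp)).differentiableAt (by simp)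
    have h7 : extDeriv (pb (fun p => γ • φ p) β) p v = pb (fun p => γ • φ p) η p v :=
      congrArg (fun α => α v) h5
    rw [extDeriv_apply h6] at h7
    simpa only [zsmul_eq_mul, Int.cast_pow, Int.cast_neg, Int.cast_one] using h7
  have h8 := (mean_sum hm Finset.univ (fun i : Fin 2 => (-1 : ℝ) ^ i.val)
    (fun (i : Fin 2) (γ : Γ) => fderiv ℝ (fun q => pb (fun p => γ • φ p) β q (i.removeNth v)) p (v i)) hbd).2
  simp only [h3] at h8
  have h9 := he2 φ p (hmdiff U φ hU hφ p hp) (hUL p hp) v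
  show ∑ i : Fin 2, (-1 : ℤ) ^ i.val •
    fderiv ℝ (fun q => pb φ (β' : Form d Z 1) q (i.removeNth v)) p (v i) = pb φ (η' : Form d Z 2) p v
  simp only [h1, zsmul_eq_mul, Int.cast_pow, Int.cast_neg, Int.cast_one]
  rw [h9]
  exact h8.symm

section inv

variable {d k : ℕ} {Z : Type} [TopologicalSpace Z] [ChartedSpace (E d) Z]
  [IsManifold (𝓡 d) ∞ Z] {Γ : Type} [Group Γ] [MulAction Γ Z] {m : (Γ → ℝ) → ℝ}

/-- the averages are invariant -/
theorem inv_of_avg (hm : IsMean m)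
    (hsm : ∀ γ : Γ, ContMDiff (𝓡 d) (𝓡 d) ∞ (fun z : Z => γ • z)) (w w' : Form d Z k)
    {L : Set Z} (hLi : ∀ (γ : Γ) (z : Z), γ • z ∈ L ↔ z ∈ L) (h0 : ∀ z ∈ L, w' z = 0)
    (hav : ∀ z, z ∉ L → ∀ (u : Fin k → TangentSpace (𝓡 d) z),
        Bdd (fun γ : Γ => pullk (d := d) (fun z : Z => γ • z) w z u) ∧
        w' z u = m (fun γ : Γ => pullk (d := d) (fun z : Z => γ • z) w z u)) (g : Γ) :
    Pool.Agent.Y945.SY.pl (d := d) (fun z : Z => g • z) w' = w' := by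
  funext z
  by_cases hz : z ∈ L
  · ext u
    show (w' (g • z) : (E d) [⋀^Fin k]→L[ℝ] ℝ) _ = (w' z : (E d) [⋀^Fin k]→L[ℝ] ℝ) u
    rw [h0 z hz, h0 _ ((hLi g z).2 hz)]
    rfl
  · have pull_mul : ∀ (γ : Γ) (u : Fin k → E d),
        (pullk (d := d) (fun z : Z => γ • z) w (g • z) : (E d) [⋀^Fin k]→L[ℝ] ℝ)
          (fun i => (mfderiv (𝓡 d) (𝓡 d) (fun z : Z => g • z) z : E d →L[ℝ] E d) (u i)) =
        (pullk (d := d) (fun z : Z => (γ * g) • z) w z : (E d) [⋀^Fin k]→L[ℝ] ℝ) u := by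
      intro γ u
      have h1 : (fun z : Z => (γ * g) • z) = (fun z : Z => γ • z) ∘ (fun z : Z => g • z) := by
        funext z; exact mul_smul γ g z
      have h2 : mfderiv (𝓡 d) (𝓡 d) ((fun z : Z => γ • z) ∘ (fun z : Z => g • z)) z =
          (mfderiv (𝓡 d) (𝓡 d) (fun z : Z => γ • z) (g • z)).comp
            (mfderiv (𝓡 d) (𝓡 d) (fun z : Z => g • z) z) :=
        mfderiv_comp z ((hsm γ (g • z)).mdifferentiableAt (by simp))
          ((hsm g z).mdifferentiableAt (by simp))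
      rw [h1]
      unfold pullk
      rw [h2]
      rfl
    ext u
    have e1 : (Pool.Agent.Y945.SY.pl (d := d) (fun z : Z => g • z) w' z :
        (E d) [⋀^Fin k]→L[ℝ] ℝ) u = (w' (g • z) : (E d) [⋀^Fin k]→L[ℝ] ℝ)
          (fun i => (mfderiv (𝓡 d) (𝓡 d) (fun z : Z => g • z) z : E d →L[ℝ] E d) (u i)) := rfl
    have e3 := (hav (g • z) (fun h => hz ((hLi g z).1 h))
      (fun i => (mfderiv (𝓡 d) (𝓡 d) (fun z : Z => g • z) z : E d →L[ℝ] E d) (u i))).2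
    have e4 := (hav z hz u).2
    refine (e1.trans (e3.trans ?_)).trans e4.symm
    have e2 : (fun γ : Γ => (pullk (d := d) (fun z : Z => γ • z) w (g • z) :
        (E d) [⋀^Fin k]→L[ℝ] ℝ)
          (fun i => (mfderiv (𝓡 d) (𝓡 d) (fun z : Z => g • z) z : E d →L[ℝ] E d) (u i))) =
        fun γ : Γ => (fun γ : Γ => (pullk (d := d) (fun z : Z => γ • z) w z :
          (E d) [⋀^Fin k]→L[ℝ] ℝ) u) (γ * g) := by
      funext γ
      exact pull_mul γ u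
    exact (congrArg m e2).trans (hm.inv g _ (hav z hz u).1)

end inv

section cov

variable {d : ℕ} {Z X : Type} [TopologicalSpace Z] [ChartedSpace (E d) Z]
  [TopologicalSpace X] [ChartedSpace (E d) X]
  {Γ : Type} [Group Γ] [MulAction Γ Z] {pr : Z → X}

open Pool.Agent.Y945.SY

/-- local sections -/
theorem key_off (hloc : IsLocalDiffeomorph (𝓡 d) (𝓡 d) ∞ pr) (hsurj : Function.Surjective pr)
    [IsManifold (𝓡 d) ∞ Z] [IsManifold (𝓡 d) ∞ X] (K : Set X) (U : Set (E d)) (φ : E d → X)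
    (hU : IsOpen U) (hφ : ContMDiffOn (𝓡 d) (𝓡 d) ∞ φ U) (hUK : ∀ p ∈ U, φ p ∉ K)
    (p₀ : E d) (hp₀ : p₀ ∈ U) :
    ∃ (U' : Set (E d)) (ψ : E d → Z), IsOpen U' ∧ p₀ ∈ U' ∧
      ContMDiffOn (𝓡 d) (𝓡 d) ∞ ψ U' ∧ (∀ p ∈ U', ψ p ∉ pr ⁻¹' K) ∧
      ∀ (k : ℕ) (σ : Form d X k) (w : Form d Z k),
        pl (d := d) pr σ = w → ∀ p ∈ U', pb φ σ p = pb ψ w p := by
  have hn : (∞ : WithTop ℕ∞) ≠ 0 := by simp
  have hmp : ∀ z, MDifferentiableAt (𝓡 d) (𝓡 d) pr z := fun z => (hloc z).mdifferentiableAt hn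
  obtain ⟨z₀, hz₀⟩ := hsurj (φ p₀)
  obtain ⟨Φ, hz, hΦ⟩ := hloc z₀
  have hU' : IsOpen (U ∩ φ ⁻¹' Φ.target) :=
    hφ.continuousOn.isOpen_inter_preimage hU Φ.open_target
  have hψ : ContMDiffOn (𝓡 d) (𝓡 d) ∞ (Φ.symm ∘ φ) (U ∩ φ ⁻¹' Φ.target) :=
    Φ.contMDiffOn_invFun.comp (hφ.mono inter_subset_left) fun p hp => hp.2
  have hprψ : ∀ r ∈ U ∩ φ ⁻¹' Φ.target, φ r = pr (Φ.symm (φ r)) := by
    intro r hr
    have h2 : Φ.symm (φ r) ∈ Φ.source := Φ.map_target hr.2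
    rw [hΦ h2]
    exact (Φ.right_inv hr.2).symm
  refine ⟨U ∩ φ ⁻¹' Φ.target, Φ.symm ∘ φ, hU', ⟨hp₀, ?_⟩, hψ, ?_, ?_⟩
  · show φ p₀ ∈ Φ.target
    rw [← hz₀, hΦ hz]
    exact Φ.map_source hz
  · intro p hp hpK
    rw [mem_preimage] at hpK
    have h1 := hprψ p hp
    apply hUK p hp.1
    rw [h1]
    exact hpK
  · intro k σ w hσw p hp
    have hψp : MDifferentiableAt (𝓡 d) (𝓡 d) (Φ.symm ∘ φ) p :=
      ((hψ p hp).contMDiffAt (hU'.mem_nhds hp)).mdifferentiableAt hn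
    have h1 : φ =ᶠ[𝓝 p] pr ∘ (Φ.symm ∘ φ) := by
      filter_upwards [hU'.mem_nhds hp] with r hr
      exact hprψ r hr
    have h2 : pb φ σ p = pbk σ (pr ∘ (Φ.symm ∘ φ)) p := pbk_congr σ h1
    have h3 : pl (d := d) pr σ ((Φ.symm ∘ φ) p) = w ((Φ.symm ∘ φ) p) := congrFun hσw _
    rw [h2, pbk_comp σ (hmp _) hψp]
    exact congrArg (fun T : (E d) [⋀^Fin k]→L[ℝ] ℝ => T.compContinuousLinearMap
      (mfderiv (𝓡 d) (𝓡 d) (Φ.symm ∘ φ) p : E d →L[ℝ] E d)) h3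

/-- the averages descend -/
theorem desc_avg {m : (Γ → ℝ) → ℝ} (hm : IsMean m)
    (hΓ : ∀ γ : Γ, ContMDiff (𝓡 d) (𝓡 d) ∞ (fun z : Z => γ • z))
    (hloc : IsLocalDiffeomorph (𝓡 d) (𝓡 d) ∞ pr) (hsurj : Function.Surjective pr)
    (hfib : ∀ z z' : Z, pr z = pr z' ↔ ∃ γ : Γ, γ • z = z')
    [IsManifold (𝓡 d) ∞ Z] [IsManifold (𝓡 d) ∞ X] {K : Set X} (hK : IsClosed K)
    (β : Form d Z 1) (η : Form d Z 2) (hβ : SmoothOff β (pr ⁻¹' K))
    (hη : SmoothOff η (pr ⁻¹' K)) (hD : IsDOff β η (pr ⁻¹' K))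
    (hb1 : ∀ (U : Set (E d)) (φ : E d → Z), IsOpen U → ContMDiffOn (𝓡 d) (𝓡 d) ∞ φ U →
      (∀ p ∈ U, φ p ∉ pr ⁻¹' K) → UnifBdd (fun (γ : Γ) => pb (fun p => γ • φ p) β) U) :
    ∃ (α : Form d X 1) (ρ : Form d X 2), SmoothOff α K ∧ SmoothOff ρ K ∧ IsDOff α ρ K ∧
      (∀ z, pr z ∉ K → ∀ (u : Fin 1 → TangentSpace (𝓡 d) z),
        Bdd (fun γ : Γ => pullk (d := d) (fun z : Z => γ • z) β z u) ∧
        pl (d := d) pr α z u = m (fun γ : Γ => pullk (d := d) (fun z : Z => γ • z) β z u)) ∧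
      (∀ z, pr z ∉ K → ∀ (u : Fin 2 → TangentSpace (𝓡 d) z),
        Bdd (fun γ : Γ => pullk (d := d) (fun z : Z => γ • z) η z u) ∧
        pl (d := d) pr ρ z u = m (fun γ : Γ => pullk (d := d) (fun z : Z => γ • z) η z u)) := by
  have hprγ : ∀ (γ : Γ) (z : Z), pr (γ • z) = pr z := fun γ z =>
    ((hfib z (γ • z)).2 ⟨γ, rfl⟩).symm
  have hLc : IsClosed (pr ⁻¹' K) := hK.preimage hloc.contMDiff.continuous
  have hLi : ∀ (γ : Γ) (z : Z), γ • z ∈ pr ⁻¹' K ↔ z ∈ pr ⁻¹' K := by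
    intro γ z
    rw [mem_preimage, mem_preimage, hprγ]
  obtain ⟨β', η', hs1, hs2, hD', h01, h02, hv1, hv2⟩ := mean_off1 hm hΓ hLc
    (fun γ z hz h => hz ((hLi γ z).1 h)) β η hβ hη hD hb1
  obtain ⟨α, hα⟩ := desc (k := 1) hΓ hloc hsurj hfib β' (inv_of_avg hm hΓ β β' hLi h01 hv1)
  obtain ⟨ρ, hρ⟩ := desc (k := 2) hΓ hloc hsurj hfib η' (inv_of_avg hm hΓ η η' hLi h02 hv2)
  refine ⟨α, ρ, ?_, ?_, ?_, ?_, ?_⟩
  · intro U φ hU hφ hUK p₀ hp₀
    obtain ⟨U', ψ, hU', hp, hψ, hψK, he⟩ := key_off hloc hsurj K U φ hU hφ hUK p₀ hp₀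
    have h1 := (hs1 U' ψ hU' hψ hψK).contDiffAt (hU'.mem_nhds hp)
    have h2 : pb φ α =ᶠ[𝓝 p₀] pb ψ β' := by
      filter_upwards [hU'.mem_nhds hp] with p hp using he 1 α β' hα p hp
    exact (h1.congr_of_eventuallyEq h2).contDiffWithinAt
  · intro U φ hU hφ hUK p₀ hp₀
    obtain ⟨U', ψ, hU', hp, hψ, hψK, he⟩ := key_off hloc hsurj K U φ hU hφ hUK p₀ hp₀
    have h1 := (hs2 U' ψ hU' hψ hψK).contDiffAt (hU'.mem_nhds hp)
    have h2 : pb φ ρ =ᶠ[𝓝 p₀] pb ψ η' := by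
      filter_upwards [hU'.mem_nhds hp] with p hp using he 2 ρ η' hρ p hp
    exact (h1.congr_of_eventuallyEq h2).contDiffWithinAt
  · intro U φ hU hφ hUK p₀ hp₀
    obtain ⟨U', ψ, hU', hp, hψ, hψK, he⟩ := key_off hloc hsurj K U φ hU hφ hUK p₀ hp₀
    have h2 : pb φ α =ᶠ[𝓝 p₀] pb ψ β' := by
      filter_upwards [hU'.mem_nhds hp] with p hp using he 1 α β' hα p hp
    have h3 := hD' U' ψ hU' hψ hψK p₀ hp
    rw [h2.extDeriv_eq, h3]
    exact (he 2 ρ η' hρ p₀ hp).symm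
  · intro z hz u
    rw [hα]
    exact hv1 z hz u
  · intro z hz u
    rw [hρ]
    exact hv2 z hz u

end cov

end Pool.Agent.X5.SYR
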