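import Pool.Agent.Y501.SY.StmR
import Pool.Agent.Y141.SY.Mean
import Pool.Agent.Y153.SY.Avg
import Pool.Agent.Y604.SY.Pull

/-!
The average of the translates of a form which is closed and bounded off an invariant closed set,
and its descent along a normal covering.
-/

set_option autoImplicit false
set_option linter.all false

open Set Filter Topology MeasureTheory
open scoped Manifold ContDiff

noncomputable section

namespace Pool.Agent.X5.SYR

open Pool.Agent.Y501.SY Pool.Agent.Y141.SY Pool.Agent.Y604.SY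

section

variable {d : ℕ} {Z : Type} [TopologicalSpace Z] [ChartedSpace (E d) Z]

/-- The translates of `w` by the group `Γ` are locally uniformly bounded off `L`, with all their
derivatives. -/
def BdtOff (Γ : Type) [Group Γ] [MulAction Γ Z] (w : Form d Z 2) (L : Set Z) : Prop :=
  ∀ (U : Set (E d)) (φ : E d → Z), IsOpen U → ContMDiffOn (𝓡 d) (𝓡 d) ∞ φ U →
    (∀ p ∈ U, φ p ∉ L) → UnifBdd (fun (γ : Γ) => pb (fun p => γ • φ p) w) U

end

theorem meanOff (d : ℕ) (Z : Type) [TopologicalSpace Z] [ChartedSpace (E d) Z]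
    [IsManifold (𝓡 d) ∞ Z] (Γ : Type) [Group Γ] [MulAction Γ Z] (m : (Γ → ℝ) → ℝ) (hm : IsMean m)
    (hsm : ∀ γ : Γ, ContMDiff (𝓡 d) (𝓡 d) ∞ (fun z : Z => γ • z))
    (w : Form d Z 2) (L : Set Z) (hL : IsClosed L) (hLi : ∀ (γ : Γ) (z : Z), z ∉ L → γ • z ∉ L)
    (hw : SmoothOff w L) (hcl : IsDOff w 0 L) (hbt : BdtOff Γ w L) :
    ∃ w' : Form d Z 2, SmoothOff w' L ∧ IsDOff w' 0 L ∧
      ∀ z : Z, z ∉ L → ∀ (u : Fin 2 → TangentSpace (𝓡 d) z),
        Bdd (fun γ : Γ => pull (d := d) (fun z : Z => γ • z) w z u) ∧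
        w' z u = m (fun γ : Γ => pull (d := d) (fun z : Z => γ • z) w z u) := by
  have hAVG := Pool.Agent.Y153.SY.t_AVG
  -- chain rule
  have chain : ∀ (φ : E d → Z) (p : E d), MDifferentiableAt (𝓡 d) (𝓡 d) φ p →
      ∀ (γ : Γ) (v : Fin 2 → E d), pb (fun p => γ • φ p) w p v =
        pull (d := d) (fun z : Z => γ • z) w (φ p) (fun i => mfderiv (𝓡 d) (𝓡 d) φ p (v i)) := by
    intro φ p hφ γ v
    have h1 : MDifferentiableAt (𝓡 d) (𝓡 d) (fun z : Z => γ • z) (φ p) :=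
      (hsm γ).mdifferentiableAt (by simp)
    have h2 : mfderiv (𝓡 d) (𝓡 d) (fun p => γ • φ p) p =
        (mfderiv (𝓡 d) (𝓡 d) (fun z : Z => γ • z) (φ p)).comp (mfderiv (𝓡 d) (𝓡 d) φ p) :=
      mfderiv_comp p h1 hφ
    unfold pb pull
    rw [h2]
    rfl
  -- bounds
  have bound : ∀ z : Z, z ∉ L → ∃ C : ℝ, ∀ (γ : Γ) (u : Fin 2 → E d),
      |(pull (d := d) (fun z : Z => γ • z) w z : (E d) [⋀^Fin 2]→L[ℝ] ℝ) u| ≤ C * ∏ i, ‖u i‖ := by
    intro z hzL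
    obtain ⟨e, he⟩ : ∃ e, e = chartAt (E d) z := ⟨_, rfl⟩
    have hat : e ∈ atlas (E d) Z := by rw [he]; exact chart_mem_atlas _ _
    have hz : z ∈ e.source := by rw [he]; exact mem_chart_source _ _
    have hsmooth : ContMDiffOn (𝓡 d) (𝓡 d) ∞ e.symm e.target := by
      rw [he]
      exact contMDiffOn_chart_symm
    have hmd := mdifferentiable_chart (I := 𝓡 d) z
    rw [← he] at hmd
    have hpt : e z ∈ e.target := e.map_source hz
    have hO : IsOpen (e.target ∩ e.symm ⁻¹' Lᶜ) :=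
      e.isOpen_inter_preimage_symm hL.isOpen_compl
    have hpO : e z ∈ e.target ∩ e.symm ⁻¹' Lᶜ := by
      refine ⟨hpt, ?_⟩
      rw [mem_preimage, e.left_inv hz]
      exact hzL
    obtain ⟨N, hN, C, hC⟩ := (hbt (e.target ∩ e.symm ⁻¹' Lᶜ) e.symm hO
      (hsmooth.mono inter_subset_left) (fun p hp => hp.2)).2 0 (e z) hpO
    have hC' : ∀ γ : Γ, ‖pb (fun p => γ • e.symm p) w (e z)‖ ≤ C := fun γ => by
      have := hC (e z) (mem_of_mem_nhds hN) γ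
      rwa [norm_iteratedFDeriv_zero] at this
    have hmf : MDifferentiableAt (𝓡 d) (𝓡 d) e.symm (e z) :=
      (hsmooth.contMDiffAt (e.open_target.mem_nhds hpt)).mdifferentiableAt (by simp)
    let B : E d →L[ℝ] E d := mfderiv (𝓡 d) (𝓡 d) e z
    let A : E d →L[ℝ] E d := mfderiv (𝓡 d) (𝓡 d) e.symm (e z)
    have hAB : ∀ v : E d, A (B v) = v := fun v =>
      DFunLike.congr_fun (hmd.symm_comp_deriv hz) v
    have hC0 : 0 ≤ C := (norm_nonneg _).trans (hC' 1)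
    refine ⟨C * (‖B‖ * ‖B‖), fun γ u => ?_⟩
    have h1 := chain e.symm (e z) hmf γ (fun i => B (u i))
    have h2 : (pull (d := d) (fun z : Z => γ • z) w z : (E d) [⋀^Fin 2]→L[ℝ] ℝ) u =
        pb (fun p => γ • e.symm p) w (e z) (fun i => B (u i)) := by
      rw [h1]
      have h3 : ∀ z' : Z, z' = z → (pull (d := d) (fun z : Z => γ • z) w z :
          (E d) [⋀^Fin 2]→L[ℝ] ℝ) u =
          (pull (d := d) (fun z : Z => γ • z) w z' : (E d) [⋀^Fin 2]→L[ℝ] ℝ) u := by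
        rintro z' rfl
        rfl
      rw [h3 _ (e.left_inv hz)]
      congr 1
      funext i
      exact (hAB (u i)).symm
    rw [h2]
    refine ((pb (fun p => γ • e.symm p) w (e z)).le_opNorm _).trans ?_
    refine (mul_le_mul_of_nonneg_right (hC' γ) (Finset.prod_nonneg fun i _ => norm_nonneg _)).trans ?_
    rw [mul_assoc]
    refine mul_le_mul_of_nonneg_left ?_ hC0
    rw [Fin.prod_univ_two, Fin.prod_univ_two]
    have h4 := B.le_opNorm (u 0)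
    have h5 := B.le_opNorm (u 1)
    calc ‖B (u 0)‖ * ‖B (u 1)‖ ≤ (‖B‖ * ‖u 0‖) * (‖B‖ * ‖u 1‖) :=
          mul_le_mul h4 h5 (norm_nonneg _) (mul_nonneg (norm_nonneg _) (norm_nonneg _))
      _ = ‖B‖ * ‖B‖ * (‖u 0‖ * ‖u 1‖) := by ring
  have hex : ∀ z : Z, ∃ α : (E d) [⋀^Fin 2]→L[ℝ] ℝ, z ∉ L → ∀ u : Fin 2 → E d, α u =
      m (fun γ : Γ => (pull (d := d) (fun z : Z => γ • z) w z : (E d) [⋀^Fin 2]→L[ℝ] ℝ) u) := by
    intro z
    by_cases hz : z ∈ L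
    · exact ⟨0, fun h => absurd hz h⟩
    · obtain ⟨α, hα⟩ := exists_avg hm _ (bound z hz)
      exact ⟨α, fun _ => hα⟩
  choose w' hw' using hex
  -- the average in coordinates
  have hev : ∀ (φ : E d → Z) (p : E d), MDifferentiableAt (𝓡 d) (𝓡 d) φ p → φ p ∉ L →
      ∀ v : Fin 2 → E d, pb φ (w' : Form d Z 2) p v =
        m (fun γ : Γ => pb (fun p => γ • φ p) w p v) := by
    intro φ p hφ hpL v
    have h1 : pb φ (w' : Form d Z 2) p v =
        w' (φ p) (fun i => mfderiv (𝓡 d) (𝓡 d) φ p (v i)) := rfl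
    rw [h1, hw' _ hpL]
    congr 1
    funext γ
    exact (chain φ p hφ γ v).symm
  have hmdiff : ∀ (U : Set (E d)) (φ : E d → Z), IsOpen U → ContMDiffOn (𝓡 d) (𝓡 d) ∞ φ U →
      ∀ p ∈ U, MDifferentiableAt (𝓡 d) (𝓡 d) φ p := fun U φ hU hφ p hp =>
    (hφ.contMDiffAt (hU.mem_nhds hp)).mdifferentiableAt (by simp)
  have hAV : ∀ (U : Set (E d)) (φ : E d → Z), IsOpen U → ContMDiffOn (𝓡 d) (𝓡 d) ∞ φ U →
      (∀ p ∈ U, φ p ∉ L) →
      ∀ v : Fin 2 → E d, ContDiffOn ℝ ∞ (fun p => m (fun γ : Γ => pb (fun p => γ • φ p) w p v)) U ∧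
        ∀ p ∈ U, ∀ x : E d, fderiv ℝ (fun p => m (fun γ : Γ => pb (fun p => γ • φ p) w p v)) p x =
          m (fun γ => fderiv ℝ (fun p => pb (fun p => γ • φ p) w p v) p x) :=
    fun U φ hU hφ hUL v =>
    hAVG d Γ m hm U (fun γ p => pb (fun p => γ • φ p) w p v) hU
      (unif_eval hU (hbt U φ hU hφ hUL) v)
  have hsm' : SmoothOff (w' : Form d Z 2) L := by
    intro U φ hU hφ hUL
    refine smooth_of_eval fun v => ?_
    exact (hAV U φ hU hφ hUL v).1.congr fun p hp =>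
      hev φ p (hmdiff U φ hU hφ p hp) (hUL p hp) v
  refine ⟨w', hsm', ?_, fun z hz u => ⟨?_, hw' z hz u⟩⟩
  · intro U φ hU hφ hUL p hp
    have hd : DifferentiableAt ℝ (pb φ (w' : Form d Z 2)) p :=
      ((hsm' U φ hU hφ hUL).contDiffAt (hU.mem_nhds hp)).differentiableAt (by simp)
    have hun := hbt U φ hU hφ hUL
    have h0 : pb φ (0 : Form d Z (2 + 1)) p = 0 := by
      ext v
      rfl
    rw [h0]
    ext v
    rw [extDeriv_apply hd]
    have h1 : ∀ i : Fin 3, fderiv ℝ (fun q => pb φ (w' : Form d Z 2) q (i.removeNth v)) p (v i) =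
        m (fun γ : Γ => fderiv ℝ (fun q => pb (fun p => γ • φ p) w q (i.removeNth v)) p (v i)) := by
      intro i
      rw [← (hAV U φ hU hφ hUL (i.removeNth v)).2 p hp]
      have h2 : (fun q => pb φ (w' : Form d Z 2) q (i.removeNth v)) =ᶠ[𝓝 p]
          fun q => m (fun γ : Γ => pb (fun p => γ • φ p) w q (i.removeNth v)) := by
        filter_upwards [hU.mem_nhds hp] with q hq
        exact hev φ q (hmdiff U φ hU hφ q hq) (hUL q hq) _
      rw [h2.fderiv_eq]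
    have hbd : ∀ i : Fin 3, Bdd (fun γ : Γ =>
        fderiv ℝ (fun q => pb (fun p => γ • φ p) w q (i.removeNth v)) p (v i)) := by
      intro i
      obtain ⟨N, hN, C, hC⟩ := (unif_eval hU hun (i.removeNth v)).2 1 p hp
      refine ⟨C * ‖v i‖, fun γ => ?_⟩
      have h2 := hC p (mem_of_mem_nhds hN) γ
      rw [norm_iteratedFDeriv_one] at h2
      exact (ContinuousLinearMap.le_opNorm _ _).trans
        (mul_le_mul_of_nonneg_right h2 (norm_nonneg _))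
    have h3 : ∀ γ : Γ, ∑ i : Fin 3, (-1 : ℝ) ^ i.val *
        fderiv ℝ (fun q => pb (fun p => γ • φ p) w q (i.removeNth v)) p (v i) = 0 := by
      intro γ
      have h4 : ContMDiffOn (𝓡 d) (𝓡 d) ∞ (fun p => γ • φ p) U := (hsm γ).comp_contMDiffOn hφ
      have h4' : ∀ p ∈ U, γ • φ p ∉ L := fun p hp => hLi γ _ (hUL p hp)
      have h5 := hcl U (fun p => γ • φ p) hU h4 h4' p hp
      have h6 : DifferentiableAt ℝ (pb (fun p => γ • φ p) w) p :=
        ((hw U _ hU h4 h4').contDiffAt (hU.mem_nhds hp)).differentiableAt (by simp)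
      have h7 : extDeriv (pb (fun p => γ • φ p) w) p v = 0 := congrArg (fun α => α v) h5
      rw [extDeriv_apply h6] at h7
      simpa only [zsmul_eq_mul, Int.cast_pow, Int.cast_neg, Int.cast_one] using h7
    have h8 := (mean_sum hm Finset.univ (fun i : Fin 3 => (-1 : ℝ) ^ i.val)
      (fun (i : Fin 3) (γ : Γ) => fderiv ℝ (fun q => pb (fun p => γ • φ p) w q (i.removeNth v)) p (v i)) hbd).2
    simp only [h3] at h8
    rw [mean_const hm] at h8
    show ∑ i : Fin 3, (-1 : ℤ) ^ i.val •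
      fderiv ℝ (fun q => pb φ (w' : Form d Z 2) q (i.removeNth v)) p (v i) = (0 : ℝ)
    simp only [h1, zsmul_eq_mul, Int.cast_pow, Int.cast_neg, Int.cast_one]
    exact h8.symm
  · obtain ⟨C, hC⟩ := bound z hz
    exact ⟨_, fun γ => hC γ u⟩

/-- Invariant closed forms off an invariant set descend. -/
theorem descOff (d : ℕ) (Z X : Type) [TopologicalSpace Z] [ChartedSpace (E d) Z]
    [IsManifold (𝓡 d) ∞ Z] [TopologicalSpace X] [ChartedSpace (E d) X]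
    [IsManifold (𝓡 d) ∞ X] (Γ : Type) [Group Γ] [MulAction Γ Z] (pr : Z → X)
    (hΓ : ∀ γ : Γ, ContMDiff (𝓡 d) (𝓡 d) ∞ (fun z : Z => γ • z))
    (hloc : IsLocalDiffeomorph (𝓡 d) (𝓡 d) ∞ pr) (hsurj : Function.Surjective pr)
    (hfib : ∀ z z' : Z, pr z = pr z' ↔ ∃ γ : Γ, γ • z = z') (K : Set X)
    (w : Form d Z 2) (hw : SmoothOff w (pr ⁻¹' K)) (hwc : IsDOff w 0 (pr ⁻¹' K))
    (hinv : ∀ (γ : Γ) (z : Z), z ∉ pr ⁻¹' K → pull (d := d) (fun z : Z => γ • z) w z = w z) :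
    ∃ σ : Form d X 2, SmoothOff σ K ∧ IsDOff σ 0 K ∧
      ∀ z, z ∉ pr ⁻¹' K → pull (d := d) pr σ z = w z := by
  have hn : (∞ : WithTop ℕ∞) ≠ 0 := by simp
  have hB : ∀ z : Z, ∃ B : E d ≃L[ℝ] E d,
      (B : E d →L[ℝ] E d) = mfderiv (𝓡 d) (𝓡 d) pr z := fun z =>
    ⟨(hloc z).mfderivToContinuousLinearEquiv hn, (hloc z).mfderivToContinuousLinearEquiv_coe hn⟩
  choose B hB using hB
  have hmp : ∀ z, MDifferentiableAt (𝓡 d) (𝓡 d) pr z := fun z => (hloc z).mdifferentiableAt hn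
  obtain ⟨s, hs⟩ : ∃ s : X → Z, ∀ x, pr (s x) = x :=
    ⟨Function.surjInv hsurj, Function.surjInv_eq hsurj⟩
  let σ : Form d X 2 := fun x =>
    (w (s x) : (E d) [⋀^Fin 2]→L[ℝ] ℝ).compContinuousLinearMap
      ((B (s x)).symm : E d →L[ℝ] E d)
  have hprγ : ∀ (γ : Γ) (z : Z), pr (γ • z) = pr z := fun γ z =>
    ((hfib z (γ • z)).2 ⟨γ, rfl⟩).symm
  have hpull : ∀ z, z ∉ pr ⁻¹' K → pull (d := d) pr σ z = w z := by
    intro z hzK
    obtain ⟨γ, hγ⟩ := (hfib z (s (pr z))).1 (hs (pr z)).symm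
    have h1 : pull (d := d) (fun z : Z => γ • z) w z = w z := hinv γ z hzK
    have hmd : MDifferentiableAt (𝓡 d) (𝓡 d) (fun z : Z => γ • z) z :=
      (hΓ γ z).mdifferentiableAt hn
    have h2 : ∀ v : E d, (mfderiv (𝓡 d) (𝓡 d) pr z : E d →L[ℝ] E d) v =
        (mfderiv (𝓡 d) (𝓡 d) pr (γ • z) : E d →L[ℝ] E d)
          ((mfderiv (𝓡 d) (𝓡 d) (fun z : Z => γ • z) z : E d →L[ℝ] E d) v) := by
      intro v
      have h3 : (mfderiv (𝓡 d) (𝓡 d) (pr ∘ (fun z : Z => γ • z)) z : E d →L[ℝ] E d) =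
          (mfderiv (𝓡 d) (𝓡 d) pr (γ • z) : E d →L[ℝ] E d).comp
            (mfderiv (𝓡 d) (𝓡 d) (fun z : Z => γ • z) z : E d →L[ℝ] E d) :=
        mfderiv_comp z (hmp _) hmd
      have h4 : pr ∘ (fun z : Z => γ • z) = pr := funext fun z => hprγ γ z
      rw [h4] at h3
      exact congrArg (fun T : E d →L[ℝ] E d => T v) h3
    have claim : ∀ (y : Z), γ • z = y → ∀ v : Fin 2 → E d,
        (w y : (E d) [⋀^Fin 2]→L[ℝ] ℝ)
          (fun i => (B y).symm ((mfderiv (𝓡 d) (𝓡 d) pr z : E d →L[ℝ] E d) (v i))) =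
        (w z : (E d) [⋀^Fin 2]→L[ℝ] ℝ) v := by
      rintro _ rfl v
      have h5 : (fun i => (B (γ • z)).symm
          ((mfderiv (𝓡 d) (𝓡 d) pr z : E d →L[ℝ] E d) (v i))) =
          fun i => (mfderiv (𝓡 d) (𝓡 d) (fun z : Z => γ • z) z : E d →L[ℝ] E d) (v i) := by
        funext i
        rw [ContinuousLinearEquiv.symm_apply_eq, h2 (v i), ← hB (γ • z)]
        rfl
      rw [h5]
      exact congrArg (fun T : (E d) [⋀^Fin 2]→L[ℝ] ℝ => T v) h1
    ext v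
    exact claim _ hγ v
  have key : ∀ (U : Set (E d)) (φ : E d → X), IsOpen U → ContMDiffOn (𝓡 d) (𝓡 d) ∞ φ U →
      (∀ p ∈ U, φ p ∉ K) →
      ∀ p₀ ∈ U, ∃ (U' : Set (E d)) (ψ : E d → Z), IsOpen U' ∧ p₀ ∈ U' ∧
        ContMDiffOn (𝓡 d) (𝓡 d) ∞ ψ U' ∧ (∀ p ∈ U', ψ p ∉ pr ⁻¹' K) ∧
        ∀ p ∈ U', pb φ σ p = pb ψ w p := by
    intro U φ hU hφ hUK p₀ hp₀
    obtain ⟨z₀, hz₀⟩ := hsurj (φ p₀)
    obtain ⟨Φ, hz, hΦ⟩ := hloc z₀
    have hU' : IsOpen (U ∩ φ ⁻¹' Φ.target) :=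
      hφ.continuousOn.isOpen_inter_preimage hU Φ.open_target
    have hψ : ContMDiffOn (𝓡 d) (𝓡 d) ∞ (Φ.symm ∘ φ) (U ∩ φ ⁻¹' Φ.target) :=
      Φ.contMDiffOn_invFun.comp (hφ.mono inter_subset_left) fun p hp => hp.2
    have hprψ : ∀ r ∈ U ∩ φ ⁻¹' Φ.target, φ r = pr (Φ.symm (φ r)) := by
      intro r hr
      have h2 : Φ.symm (φ r) ∈ Φ.source := Φ.map_target hr.2
      rw [hΦ h2]
      exact (Φ.right_inv hr.2).symm
    have hψK : ∀ p ∈ U ∩ φ ⁻¹' Φ.target, (Φ.symm ∘ φ) p ∉ pr ⁻¹' K := by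
      intro p hp hpK
      rw [mem_preimage] at hpK
      have h1 := hprψ p hp
      apply hUK p hp.1
      rw [h1]
      exact hpK
    refine ⟨U ∩ φ ⁻¹' Φ.target, Φ.symm ∘ φ, hU', ⟨hp₀, ?_⟩, hψ, hψK, ?_⟩
    · show φ p₀ ∈ Φ.target
      rw [← hz₀, hΦ hz]
      exact Φ.map_source hz
    · intro p hp
      have hψp : MDifferentiableAt (𝓡 d) (𝓡 d) (Φ.symm ∘ φ) p :=
        ((hψ p hp).contMDiffAt (hU'.mem_nhds hp)).mdifferentiableAt hn
      have h1 : φ =ᶠ[𝓝 p] pr ∘ (Φ.symm ∘ φ) := by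
        filter_upwards [hU'.mem_nhds hp] with r hr
        exact hprψ r hr
      have h2 : pb φ σ p = pbG σ (pr ∘ (Φ.symm ∘ φ)) p := pbG_congr σ h1
      have h3 : pull (d := d) pr σ ((Φ.symm ∘ φ) p) = w ((Φ.symm ∘ φ) p) := hpull _ (hψK p hp)
      rw [h2, pbG_comp σ (hmp _) hψp]
      exact congrArg (fun T : (E d) [⋀^Fin 2]→L[ℝ] ℝ => T.compContinuousLinearMap
        (mfderiv (𝓡 d) (𝓡 d) (Φ.symm ∘ φ) p : E d →L[ℝ] E d)) h3
  refine ⟨σ, ?_, ?_, hpull⟩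
  · intro U φ hU hφ hUK p₀ hp₀
    obtain ⟨U', ψ, hU', hp, hψ, hψK, he⟩ := key U φ hU hφ hUK p₀ hp₀
    have h1 := (hw U' ψ hU' hψ hψK).contDiffAt (hU'.mem_nhds hp)
    have h2 : pb φ σ =ᶠ[𝓝 p₀] pb ψ w := by
      filter_upwards [hU'.mem_nhds hp] with p hp using he p hp
    exact (h1.congr_of_eventuallyEq h2).contDiffWithinAt
  · intro U φ hU hφ hUK p₀ hp₀
    obtain ⟨U', ψ, hU', hp, hψ, hψK, he⟩ := key U φ hU hφ hUK p₀ hp₀
    have h2 : pb φ σ =ᶠ[𝓝 p₀] pb ψ w := by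
      filter_upwards [hU'.mem_nhds hp] with p hp using he p hp
    have h3 := hwc U' ψ hU' hψ hψK p₀ hp
    rw [h2.extDeriv_eq, h3]
    ext v
    rfl

end Pool.Agent.X5.SYR
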