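import Pool.Agent.Y501.SY.PubA
import Pool.Agent.Y501.SY.PubT

/-!
Closed two-forms with singularities on coverings: the definitions used in the statement.
-/

set_option autoImplicit false

open Set Filter Topology MeasureTheory
open scoped Manifold ContDiff

noncomputable section

namespace Pool.Agent.X5.SYR

open Pool.Agent.Y501.SYP

section

variable {V : Type} [NormedAddCommGroup V] [NormedSpace ℝ V]
  {Z X : Type} [TopologicalSpace Z] [ChartedSpace V Z] [TopologicalSpace X] [ChartedSpace V X]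

/-- The translates of the two-form `w` by the group `Γ` are locally uniformly bounded on the
complement of `L`, with all their derivatives. -/
def BoundedTranslatesOff (Γ : Type) [Group Γ] [MulAction Γ Z] (w : Form V Z 2) (L : Set Z) :
    Prop :=
  ∀ (U : Set V) (φ : V → Z), SmoothParam U φ → (∀ p ∈ U, φ p ∉ L) →
    UnifBdd (fun (γ : Γ) => pb (fun p => γ • φ p) w) U

/-- The image of a tangent vector of `Z` in `X`, in the chart of `X` at `x`. -/
def crd (pr : Z → X) (x : X) (z : Z) (u : TangentSpace 𝓘(ℝ, V) z) : V :=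
  mfderiv 𝓘(ℝ, V) 𝓘(ℝ, V) (chartAt V x) (pr z) (mfderiv 𝓘(ℝ, V) 𝓘(ℝ, V) pr z u)

/-- Near `x` the form `w` is bounded on the complement of `K`, uniformly on all sheets. -/
def BddSheets (pr : Z → X) (w : Form V Z 2) (K : Set X) (x : X) : Prop :=
  ∃ B : ℝ, ∀ᶠ y in 𝓝 x, y ∉ K → ∀ z : Z, pr z = y → ∀ u u' : TangentSpace 𝓘(ℝ, V) z,
    |w z ![u, u']| ≤ B * ‖crd pr x z u‖ * ‖crd pr x z u'‖

/-- `u'` is the image of `u` under the lift of `J`. -/
def LiftJ (pr : Z → X) (J : End V X) (z : Z) (u u' : TangentSpace 𝓘(ℝ, V) z) : Prop :=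
  mfderiv 𝓘(ℝ, V) 𝓘(ℝ, V) pr z u' = J (pr z) (mfderiv 𝓘(ℝ, V) 𝓘(ℝ, V) pr z u)

/-- The average, for the mean `m`, of the values `(γ^* w)(u, u')` over the translates of `w`. -/
def average {Γ : Type} [Group Γ] [MulAction Γ Z] (m : (Γ → ℝ) → ℝ) (w : Form V Z 2) (z : Z)
    (u u' : TangentSpace 𝓘(ℝ, V) z) : ℝ :=
  m (fun γ : Γ => translate γ w z ![u, u'])

/-- `w` weakly tames the lift of `J` over the complement of `K`, on the average. -/
def WeaklyTamesOnAverage {Γ : Type} [Group Γ] [MulAction Γ Z] (m : (Γ → ℝ) → ℝ) (pr : Z → X)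
    (J : End V X) (w : Form V Z 2) (K : Set X) : Prop :=
  ∀ z : Z, pr z ∉ K → ∀ u u' : TangentSpace 𝓘(ℝ, V) z, LiftJ pr J z u u' →
    0 ≤ average m w z u u'

/-- Near `x` the form `w` tames the lift of `J` over the complement of `K` on the average,
uniformly. -/
def UnifTamesOnAverage {Γ : Type} [Group Γ] [MulAction Γ Z] (m : (Γ → ℝ) → ℝ) (pr : Z → X)
    (J : End V X) (w : Form V Z 2) (K : Set X) (x : X) : Prop :=
  ∃ c : ℝ, 0 < c ∧ ∀ᶠ y in 𝓝 x, y ∉ K → ∀ z : Z, pr z = y → ∀ u u' : TangentSpace 𝓘(ℝ, V) z,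
    LiftJ pr J z u u' → c * ‖crd pr x z u‖ ^ 2 ≤ average m w z u u'

/-- the points of `X` near which `w` does not tame the lift of `J` uniformly on the average -/
def CritAverage {Γ : Type} [Group Γ] [MulAction Γ Z] (m : (Γ → ℝ) → ℝ) (pr : Z → X)
    (J : End V X) (w : Form V Z 2) (K : Set X) : Set X :=
  {x | ¬ UnifTamesOnAverage m pr J w K x}

end

end Pool.Agent.X5.SYR
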