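import Pool.Agent.X5.SYR.Pub
import Pool.Agent.Y501.SY.PubU
import Pool.Agent.Y501.SY.PubV

/-!
One-forms with singularities on coverings: the definitions used in the statement.
-/

set_option autoImplicit false

open Set Filter Topology MeasureTheory
open scoped Manifold ContDiff

noncomputable section

namespace Pool.Agent.X5.SYR

open Pool.Agent.Y501.SYP

section

variable {V : Type} [NormedAddCommGroup V] [NormedSpace ℝ V]
  {Z X : Type} [TopologicalSpace Z] [ChartedSpace V Z] [TopologicalSpace X] [ChartedSpace V X]

/-- The translates of the one-form `β` by the group `Γ` are locally uniformly bounded on the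
complement of `L`, with all their derivatives. -/
def BoundedTranslates1Off (Γ : Type) [Group Γ] [MulAction Γ Z] (β : Form V Z 1) (L : Set Z) :
    Prop :=
  ∀ (U : Set V) (φ : V → Z), SmoothParam U φ → (∀ p ∈ U, φ p ∉ L) →
    UnifBdd (fun (γ : Γ) => pb (fun p => γ • φ p) β) U

/-- Near `x` the one-form `β` is bounded on the complement of `K`, uniformly on all sheets. -/
def BddSheets1 (pr : Z → X) (β : Form V Z 1) (K : Set X) (x : X) : Prop :=
  ∃ B : ℝ, ∀ᶠ y in 𝓝 x, y ∉ K → ∀ z : Z, pr z = y → ∀ u : TangentSpace 𝓘(ℝ, V) z,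
    |β z ![u]| ≤ B * ‖crd pr x z u‖

end

end Pool.Agent.X5.SYR
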